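import Pool.Agent.N974.T15.Sc
import Pool.Agent.N875.X15.AsmA

/-!
# Level 15: the central values for the negative discriminants, in terms of the odd symbol
-/

set_option autoImplicit false
set_option linter.style.haveILetI false

open Complex Filter Topology Set ZMod

namespace Pool.Agent.N974.T15

open Pool.Agent.N974.MF (E15 S_LAT Symb15)
open Pool.Agent.N969.P15 (un Ev chE)
open Pool.Agent.W97.MT (ap)
open Pool.Agent.Y700 (IsL tamProd Omega)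
open Pool.Agent.N875.X15 (omega_eq per_neg valueG t2 Rel)

/-- the central value in terms of the odd symbol -/
def RelN (n : ℕ) (w : ℕ → ℤ) (T : ℕ) (Q : Prop) : Prop := ∃ y c : ℤ, Odd c ∧ (Odd y ↔ Q) ∧
  ∀ (s : ℚ → ℤ) (a : ℕ → ℤ), Symb15 s a → ∃ e : ℤ, Odd e ∧
    4 * c * ∑ u ∈ un n, w u * s ((u : ℚ) / n) = e * (T : ℤ) * y ^ 2

/-- the value at `1 / 3` is odd -/
theorem s13_odd {s : ℚ → ℤ} {a : ℕ → ℤ} (h : Symb15 s a) : Odd (s (1 / 3)) := by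
  refine h.odd3 _ ?_ ?_
  · norm_num
  · norm_num

/-- the classes of `N875/X15` -/
theorem relN_of {n : ℕ} {w : ℕ → ℤ} {Q : Prop} (hr : Rel n w Q) {T : ℕ}
    (hT : T = 4 ^ n.primeFactors.card * (t2 3 n * t2 5 n)) : RelN n w T Q := by
  obtain ⟨y, hy, h⟩ := hr
  refine ⟨y, 9, by decide, hy, fun s a hs => ⟨s (1 / 3), s13_odd hs, ?_⟩⟩
  have h1 := h s a hs
  rw [← hT] at h1
  linarith

/-- **negative discriminants** -/
theorem coreN {n : ℕ} [NeZero n] (hn1 : 1 < n) (W : WeierstrassCurve ℤ)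
    (h4 : W.c₄ = 481 * (n : ℤ) ^ 2) (h6 : W.c₆ = -(4879 * (n : ℤ) ^ 3))
    (χ : DirichletCharacter ℂ n) (hχ : χ.IsPrimitive) (hinv : χ⁻¹ = χ) (hodd : χ (-1) = -1)
    (w : ℕ → ℤ) (hw : ∀ u : ℕ, χ (u : ZMod n) = (w u : ℂ))
    (hv : ∀ p : ℕ, p.Prime → w p = 0 ∨ w p = 1 ∨ w p = -1)
    (ha : ∀ p : ℕ, p.Prime → ap W p = ap E15 p * w p)
    (hΔ : ∀ p : ℕ, p.Prime → ((p : ℤ) ∣ W.Δ ↔ p ∣ 15 ∨ w p = 0)) {T : ℕ} (hT : tamProd W = T)
    (htor : Tor4 W) {Q : Prop} (hR : RelN n w T Q) : Concl W Q := by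
  have hn0 : (0 : ℝ) < n := by exact_mod_cast (by omega : 0 < n)
  have hsn : (0 : ℝ) < √(n : ℝ) := Real.sqrt_pos.2 hn0
  have hlat : S_LAT := Pool.Agent.N975.Lat15.s_lat
  obtain ⟨L, Op, Om, hOp, hOm, g2, g3, hL⟩ := id hlat
  obtain ⟨sp, sm, hsy, hneg, hper, hsym⟩ :=
    Pool.Agent.N875.X15.Sy.exists_symbL L Op Om hOp hOm g2 g3 hL
  have hΩ : Omega W = 2 * Om / √n := by
    rw [omega_eq, per_neg L Op Om hOp hOm g2 g3 hL n (by omega) W h4 h6]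
    ring
  obtain ⟨f, ε, hf, hε, hval⟩ := valueG hlat hsy hneg hper W hn1 χ hχ hinv hodd w hw hv ha hΔ
  refine ⟨by rw [hΩ]; positivity, ?_⟩
  obtain ⟨y, c, hc, hyQ, hrel⟩ := hR
  obtain ⟨t, ht, htor⟩ := htor
  obtain ⟨e, he, hr⟩ := hrel sm _ hsym
  have : Fact (Nat.Prime 2) := ⟨Nat.prime_two⟩
  have hεo : Odd ε := by rcases hε with rfl | rfl <;> decide
  have hzo : Odd (ε * e * (t : ℤ) ^ 2) :=
    (hεo.mul he).mul ((Int.odd_coe_nat t).2 ht).pow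
  have hz0 : ε * e * (t : ℤ) ^ 2 ≠ 0 := by
    intro h0
    rw [h0] at hzo
    exact absurd hzo (by decide)
  have hc0 : c ≠ 0 := by
    rintro rfl
    exact absurd hc (by decide)
  have ht0 : (t : ℝ) ≠ 0 := by
    have : t ≠ 0 := by rintro rfl; exact absurd ht (by decide)
    exact_mod_cast this
  refine ⟨f, ((ε * e * (t : ℤ) ^ 2 : ℤ) : ℚ) / ((c : ℤ) : ℚ), y, hf, ?_, ?_, hyQ, ?_⟩
  · exact div_ne_zero (by exact_mod_cast hz0) (by exact_mod_cast hc0)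
  · rw [padicValRat.div (by exact_mod_cast hz0) (by exact_mod_cast hc0), odd_val hzo, odd_val hc]
    rfl
  · rw [hval, hΩ, htor, hT]
    have hr' : (4 : ℝ) * c * ((∑ u ∈ un n, w u * sm ((u : ℚ) / n) : ℤ) : ℝ) =
        (e : ℝ) * (T : ℝ) * (y : ℝ) ^ 2 := by
      exact_mod_cast hr
    set S : ℝ := ((∑ u ∈ un n, w u * sm ((u : ℚ) / n) : ℤ) : ℝ) with hS
    congr 1
    have hcR : (c : ℝ) ≠ 0 := by exact_mod_cast hc0
    have hS' : S = (e : ℝ) * T * (y : ℝ) ^ 2 / (4 * c) := by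
      rw [eq_div_iff (mul_ne_zero (by norm_num) hcR)]
      linarith
    rw [hS']
    push_cast
    field_simp
    ring

/-- **odd negative discriminants** -/
theorem negO {n : ℕ} (hs : Squarefree n) (h4 : n % 4 = 3) (W : WeierstrassCurve ℤ)
    (hc4 : W.c₄ = 481 * (n : ℤ) ^ 2) (hc6 : W.c₆ = -(4879 * (n : ℤ) ^ 3))
    (ha : ∀ p : ℕ, p.Prime → ap W p = ap E15 p * jacobiSym p n)
    (hΔ : ∀ p : ℕ, p.Prime → ((p : ℤ) ∣ W.Δ ↔ p ∣ 15 ∨ p ∣ n)) {T : ℕ} (hT : tamProd W = T)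
    (htor : Tor4 W) {Q : Prop} (hR : RelN n (fun u => jacobiSym u n) T Q) : Concl W Q := by
  have hodd : Odd n := Nat.odd_iff.2 (by omega)
  haveI : NeZero n := ⟨by omega⟩
  set d : Pool.Agent.H491R3.J.OS := ⟨n, hodd, hs, by omega⟩ with hd
  have hchi : ∀ m : ℕ, H491R3.J.chi d (m : ZMod n) = ((jacobiSym (m : ℤ) n : ℤ) : ℂ) :=
    H491R3.J.chi_natCast d
  have jz : ∀ p : ℕ, p.Prime → (jacobiSym (p : ℤ) n = 0 ↔ p ∣ n) := by
    intro p hp
    rw [jacobiSym.eq_zero_iff_not_coprime, Int.gcd_natCast_natCast]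
    have h9 : Nat.gcd p n = 1 ↔ ¬ p ∣ n := Nat.Prime.coprime_iff_not_dvd hp
    rw [ne_eq, h9, not_not]
  refine coreN (by omega) W hc4 hc6 (H491R3.J.chi d) (H491R3.J.chi_primitive d)
    (H491R3.J.chi_inv d) ?_ (fun u => jacobiSym u n) hchi ?_ ha ?_ hT htor hR
  · have h9 := H491R3.J.chi_neg_one d
    have h10 : ¬ (d.1 % 4 = 1) := by
      change ¬ (n % 4 = 1)
      omega
    rw [h9, if_neg h10]
  · intro p hp
    by_cases hpn : p ∣ n
    · exact Or.inl ((jz p hp).2 hpn)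
    · right
      refine jacobiSym.eq_one_or_neg_one ?_
      rw [Int.gcd_natCast_natCast]
      exact (Nat.Prime.coprime_iff_not_dvd hp).2 hpn
  · intro p hp
    rw [hΔ p hp, jz p hp]

open Pool.Agent.N975.ChE Pool.Agent.N969.P15 in
/-- **even negative discriminants** -/
theorem negE {n : ℕ} (hE : Ev n) (W : WeierstrassCurve ℤ)
    (hc4 : W.c₄ = 481 * (n : ℤ) ^ 2) (hc6 : W.c₆ = -(4879 * (n : ℤ) ^ 3))
    (ha : ∀ p : ℕ, p.Prime → ap W p = ap E15 p * chE n p)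
    (hΔ : ∀ p : ℕ, p.Prime → ((p : ℤ) ∣ W.Δ ↔ p ∣ 15 ∨ p ∣ n)) {T : ℕ} (hT : tamProd W = T)
    (htor : Tor4 W) {Q : Prop} (hR : RelN n (fun u => chE n u) T Q) : Concl W Q := by
  have hm := ev_mod hE
  have hn0 := ev_pos hE
  haveI : NeZero n := ⟨by omega⟩
  have jz : ∀ p : ℕ, p.Prime → (chE n p = 0 ↔ p ∣ n) := by
    intro p hp
    constructor
    · intro h0
      by_contra hcon
      rcases chE_pm hm ((Nat.Prime.coprime_iff_not_dvd hp).2 hcon) with h | h <;>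
        rw [h] at h0 <;> norm_num at h0
    · intro h0
      exact chE_zero hm fun h => hp.one_lt.ne' (Nat.eq_one_of_dvd_coprimes h dvd_rfl h0)
  refine coreN (by omega) W hc4 hc6 (chi n hm) (chi_primitive hE)
    (chi_inv n hm) ?_ (fun u => chE n u) (chi_nat n hm) ?_ ha ?_ hT htor hR
  · have h1 : ((n - 1 : ℕ) : ZMod n) = -1 := by
      rw [Nat.cast_sub (by omega), ZMod.natCast_self, Nat.cast_one, zero_sub]
    have h2 : chE n ((n - 1 : ℕ) : ℤ) = -1 := by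
      rw [chE_mod hm (u := ((n - 1 : ℕ) : ℤ)) (v := -1) ⟨1, by omega⟩]
      exact Pool.Agent.N975.CHB.chE_neg_one hE
    rw [← h1, chi_nat n hm, h2]
    norm_num
  · intro p hp
    by_cases hpn : p ∣ n
    · exact Or.inl ((jz p hp).2 hpn)
    · exact Or.inr (chE_pm hm ((Nat.Prime.coprime_iff_not_dvd hp).2 hpn))
  · intro p hp
    rw [hΔ p hp, jz p hp]

end Pool.Agent.N974.T15
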