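import Pool.Agent.N974.T15.Ex3
import Pool.Agent.N974.T15.Neg

/-!
# Level 15: the exact central values
-/

set_option autoImplicit false
set_option linter.style.haveILetI false

open Complex Filter Topology Set UpperHalfPlane MatrixGroups CongruenceSubgroup ZMod

namespace Pool.Agent.N974.T15

open Pool.Agent.N974.Gen
open Pool.Agent.N974.GN (eigen15)
open Pool.Agent.N974.MF (E15 f15 S_LAT Symb15)
open Pool.Agent.N969.P15 (un Ev chE)
open Pool.Agent.N969.P17G (chP)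
open Pool.Agent.N969.RQ (Fd)
open Pool.Agent.W97.MT (ap)
open Pool.Agent.Y700 (IsL tamProd Omega)
open Pool.Agent.N974.P15G (sig15 ky15 sy15 sig15_mul)
open Pool.Agent.N974.RQ (chP_odd ev_of odd_of)
open Pool.Agent.N875.X15 (omega_eq per_neg t2 Rel)

/-- the conclusion: the central value is an integral square, up to the expected factors -/
def ConclX (W : WeierstrassCurve ℤ) (Q : Prop) : Prop := 0 < Omega W ∧
    ∃ (f : ℂ → ℂ) (y : ℤ), IsL W f ∧ (Odd y ↔ Q) ∧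
      f 1 = (((y : ℝ) ^ 2 * (Omega W * tamProd W / 16) : ℝ) : ℂ)

/-- the central value in terms of the normalized odd symbol -/
def RelX (n : ℕ) (w : ℕ → ℤ) (T : ℕ) (Q : Prop) : Prop := ∃ y : ℤ, (Odd y ↔ Q) ∧
  ∀ (s : ℚ → ℤ) (a : ℕ → ℤ), Symb15 s a → s (1 / 3) = 1 →
    4 * ∑ u ∈ un n, w u * s ((u : ℚ) / n) = (T : ℤ) * y ^ 2

theorem t2_cop (p n : ℕ) : Nat.Coprime 3 (t2 p n) := by
  unfold t2
  split_ifs <;> decide

/-- the classes of `N875/X15` -/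
theorem relX_of {n : ℕ} {w : ℕ → ℤ} {Q : Prop} (hr : Rel n w Q) {T : ℕ}
    (hT : T = 4 ^ n.primeFactors.card * (t2 3 n * t2 5 n)) : RelX n w T Q := by
  obtain ⟨y, hy, h⟩ := hr
  obtain ⟨L, Op, Om, hOp, hOm, g2, g3, hL⟩ := Pool.Agent.N975.Lat15.s_lat
  obtain ⟨s0, -, hs0, h130⟩ := scale15o L Op Om hOp hOm g2 g3 hL
  have h1 := h s0 _ hs0
  rw [← hT, h130, one_mul] at h1
  have hTc : Nat.Coprime 3 T := by
    rw [hT]
    exact Nat.Coprime.mul_right (Nat.Coprime.pow_right _ (by decide))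
      (Nat.Coprime.mul_right (t2_cop 3 n) (t2_cop 5 n))
  have h3 : (3 : ℤ) ∣ y := by
    have h4 : (3 : ℤ) ∣ (T : ℤ) * y ^ 2 :=
      ⟨12 * ∑ u ∈ un n, w u * s0 ((u : ℚ) / n), by rw [← h1]; ring⟩
    have h5 : IsCoprime (3 : ℤ) (T : ℤ) := by exact_mod_cast Nat.isCoprime_iff_coprime.2 hTc
    exact Int.prime_three.dvd_of_dvd_pow (h5.dvd_of_dvd_mul_left h4)
  obtain ⟨z, rfl⟩ := h3
  refine ⟨z, ?_, fun s a hs h13 => ?_⟩
  · rw [← hy, Int.odd_mul]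
    exact ⟨fun h => ⟨by decide, h⟩, fun h => h.2⟩
  · have h2 := h s a hs
    rw [← hT, h13, one_mul] at h2
    linarith

/-- **positive discriminants** -/
theorem coreX {n : ℕ} [NeZero n] (hn1 : 1 < n) (W : WeierstrassCurve ℤ)
    (h4 : W.c₄ = 481 * (n : ℤ) ^ 2) (h6 : W.c₆ = 4879 * (n : ℤ) ^ 3)
    (χ : DirichletCharacter ℂ n) (hχ : χ.IsPrimitive) (hinv : χ⁻¹ = χ) (heven : χ (-1) = 1)
    (hG : gaussSum χ (stdAddChar (N := n)) = ((Real.sqrt n : ℝ) : ℂ))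
    (w : ℕ → ℤ) (hw : ∀ u : ℕ, χ (u : ZMod n) = (w u : ℂ))
    (hv : ∀ p : ℕ, p.Prime → w p = 0 ∨ w p = 1 ∨ w p = -1)
    (ha : ∀ p : ℕ, p.Prime → ap W p = ap E15 p * w p)
    (hΔ : ∀ p : ℕ, p.Prime → ((p : ℤ) ∣ W.Δ ↔ p ∣ 15 ∨ w p = 0)) {T : ℕ} (hT : tamProd W = T)
    {Q : Prop}
    (hs : ∑ u ∈ un n, (w u : ℝ) * (II f15 ((u : ℚ) / n)).re = ky15 * sig15 n)
    (hR : RelP n T Q) : ConclX W Q := by
  have hn0 : (0 : ℝ) < n := by exact_mod_cast (by omega : 0 < n)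
  have hsn : (0 : ℝ) < √(n : ℝ) := Real.sqrt_pos.2 hn0
  have hlat : Pool.Agent.N974.MF.S_LAT := Pool.Agent.N975.Lat15.s_lat
  obtain ⟨L, Op, Om, hOp, hOm, g2, g3, hL⟩ := hlat
  have hky := scale15e L Op Om hOp hOm g2 g3 hL
  have hΩ : Omega W = 2 * Op / √n := Pool.Agent.N971.EX.omega_pos L Op Om hOp hOm
    (c4 := 481) (c6 := 4879) (by rw [g2]; push_cast; rfl) (by rw [g3]; push_cast; rfl) hL n
    (by omega) W h4 h6
  obtain ⟨f, hf, hf1⟩ := Pool.Agent.N971.EX.value_even eigen15 W hn1 χ hχ hinv heven hG w hw hv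
    ha hΔ
  refine ⟨by rw [hΩ]; positivity, ?_⟩
  obtain ⟨y, hyQ, hy⟩ := hR
  refine ⟨f, y, hf, hyQ, ?_⟩
  rw [hf1, hs, hky, hΩ, hT]
  congr 1
  have hs' : sig15 n = -(T * (y : ℝ) ^ 2) / 8 := by linarith
  rw [hs']
  field_simp
  ring

/-- **odd positive discriminants** -/
theorem posOX {n : ℕ} (hs : Squarefree n) (h4 : n % 4 = 1) (h1 : 1 < n) (W : WeierstrassCurve ℤ)
    (hc4 : W.c₄ = 481 * (n : ℤ) ^ 2) (hc6 : W.c₆ = 4879 * (n : ℤ) ^ 3)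
    (ha : ∀ p : ℕ, p.Prime → ap W p = ap E15 p * jacobiSym p n)
    (hΔ : ∀ p : ℕ, p.Prime → ((p : ℤ) ∣ W.Δ ↔ p ∣ 15 ∨ p ∣ n)) {T : ℕ} (hT : tamProd W = T)
    {Q : Prop} (hR : RelP n T Q) : ConclX W Q := by
  have hodd : Odd n := Nat.odd_iff.2 (by omega)
  haveI : NeZero n := ⟨by omega⟩
  set d : Pool.Agent.H491R3.J.OS := ⟨n, hodd, hs, by omega⟩ with hd
  have hchi : ∀ m : ℕ, H491R3.J.chi d (m : ZMod n) = ((jacobiSym (m : ℤ) n : ℤ) : ℂ) :=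
    H491R3.J.chi_natCast d
  have jz : ∀ p : ℕ, p.Prime → (jacobiSym (p : ℤ) n = 0 ↔ p ∣ n) := by
    intro p hp
    rw [jacobiSym.eq_zero_iff_not_coprime, Int.gcd_natCast_natCast]
    have h9 : Nat.gcd p n = 1 ↔ ¬ p ∣ n := Nat.Prime.coprime_iff_not_dvd hp
    rw [ne_eq, h9, not_not]
  refine coreX h1 W hc4 hc6 (H491R3.J.chi d) (H491R3.J.chi_primitive d)
    (H491R3.J.chi_inv d) ?_ ?_ (fun u => jacobiSym u n) hchi ?_ ha ?_ hT ?_ hR
  · have h9 := H491R3.J.chi_neg_one d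
    have h10 : d.1 % 4 = 1 := h4
    rw [h9, if_pos h10]
  · rw [Pool.Agent.N971.EX.gauss_odd (H491R3.J.chi d) hchi, Pool.Agent.N971.EX.gJ_one hs h4]
  · intro p hp
    by_cases hpn : p ∣ n
    · exact Or.inl ((jz p hp).2 hpn)
    · right
      refine jacobiSym.eq_one_or_neg_one ?_
      rw [Int.gcd_natCast_natCast]
      exact (Nat.Prime.coprime_iff_not_dvd hp).2 hpn
  · intro p hp
    rw [hΔ p hp, jz p hp]
  · rw [sig15_mul]
    refine Finset.sum_congr rfl fun u _ => ?_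
    rw [chP_odd hs (by omega)]
    rfl

open Pool.Agent.N974.Gen.ChP in
/-- **even positive discriminants** -/
theorem posEX {n : ℕ} (hn : Fd n) (h2 : 2 ∣ n) (W : WeierstrassCurve ℤ)
    (hc4 : W.c₄ = 481 * (n : ℤ) ^ 2) (hc6 : W.c₆ = 4879 * (n : ℤ) ^ 3)
    (ha : ∀ p : ℕ, p.Prime → ap W p = ap E15 p * chP n p)
    (hΔ : ∀ p : ℕ, p.Prime → ((p : ℤ) ∣ W.Δ ↔ p ∣ 15 ∨ p ∣ n)) {T : ℕ} (hT : tamProd W = T)
    {Q : Prop} (hR : RelP n T Q) : ConclX W Q := by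
  have hE := ev_of hn h2
  have hm := ev_mod hE
  have hn0 : 0 < n := by have := hn.1; omega
  haveI : NeZero n := ⟨by omega⟩
  have hP : ∀ u : ℤ, chP n u = Pool.Agent.N974.Gen.ChP.chE n u :=
    fun u => Pool.Agent.N974.PG.chP_eq hE u
  have hchi : ∀ m : ℕ, chi n hm (m : ZMod n) = ((chP n (m : ℤ) : ℤ) : ℂ) := by
    intro m
    rw [chi_nat, hP]
  have jz : ∀ p : ℕ, p.Prime → (chP n p = 0 ↔ p ∣ n) := by
    intro p hp
    rw [hP]
    constructor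
    · intro h0
      by_contra hcon
      rcases chE_pm hm ((Nat.Prime.coprime_iff_not_dvd hp).2 hcon) with h | h <;>
        rw [h] at h0 <;> norm_num at h0
    · intro h0
      exact chE_zero hm fun h => hp.one_lt.ne' (Nat.eq_one_of_dvd_coprimes h dvd_rfl h0)
  refine coreX hn.1 W hc4 hc6 (chi n hm) (chi_primitive hE)
    (chi_inv n hm) ?_ ?_ (fun u => chP n u) hchi ?_ ha ?_ hT ?_ hR
  · have h1 : ((n - 1 : ℕ) : ZMod n) = -1 := by
      rw [Nat.cast_sub (by omega), ZMod.natCast_self, Nat.cast_one, zero_sub]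
    have h2 : chP n ((n - 1 : ℕ) : ℤ) = 1 := by
      rw [hP, chE_mod hm (u := ((n - 1 : ℕ) : ℤ)) (v := -1) ⟨1, by omega⟩]
      exact Pool.Agent.N974.PG.chE_neg_one hE
    rw [← h1, hchi, h2]
    norm_num
  · obtain ⟨m, rfl, hs, h5⟩ := hE
    exact Pool.Agent.N971.EX.gauss_chP hs h5.symm (chi (4 * m) hm) hchi
  · intro p hp
    by_cases hpn : p ∣ n
    · exact Or.inl ((jz p hp).2 hpn)
    · right
      show chP n p = 1 ∨ chP n p = -1
      rw [hP]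
      exact chE_pm hm ((Nat.Prime.coprime_iff_not_dvd hp).2 hpn)
  · intro p hp
    rw [hΔ p hp]
    show _ ↔ _ ∨ chP n p = 0
    rw [jz p hp]
  · rw [sig15_mul]
    rfl


/-- **negative discriminants** -/
theorem coreY {n : ℕ} [NeZero n] (hn1 : 1 < n) (W : WeierstrassCurve ℤ)
    (h4 : W.c₄ = 481 * (n : ℤ) ^ 2) (h6 : W.c₆ = -(4879 * (n : ℤ) ^ 3))
    (χ : DirichletCharacter ℂ n) (hχ : χ.IsPrimitive) (hinv : χ⁻¹ = χ) (hodd : χ (-1) = -1)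
    (hG : gaussSum χ (stdAddChar (N := n)) = Complex.I * ((Real.sqrt n : ℝ) : ℂ))
    (w : ℕ → ℤ) (hw : ∀ u : ℕ, χ (u : ZMod n) = (w u : ℂ))
    (hv : ∀ p : ℕ, p.Prime → w p = 0 ∨ w p = 1 ∨ w p = -1)
    (ha : ∀ p : ℕ, p.Prime → ap W p = ap E15 p * w p)
    (hΔ : ∀ p : ℕ, p.Prime → ((p : ℤ) ∣ W.Δ ↔ p ∣ 15 ∨ w p = 0)) {T : ℕ} (hT : tamProd W = T)
    {Q : Prop} (hR : RelX n w T Q) : ConclX W Q := by
  have hn0 : (0 : ℝ) < n := by exact_mod_cast (by omega : 0 < n)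
  have hsn : (0 : ℝ) < √(n : ℝ) := Real.sqrt_pos.2 hn0
  have hlat : S_LAT := Pool.Agent.N975.Lat15.s_lat
  obtain ⟨L, Op, Om, hOp, hOm, g2, g3, hL⟩ := id hlat
  obtain ⟨s, him, hsym, h13⟩ := scale15o L Op Om hOp hOm g2 g3 hL
  have hΩ : Omega W = 2 * Om / √n := by
    rw [omega_eq, per_neg L Op Om hOp hOm g2 g3 hL n (by omega) W h4 h6]
    ring
  obtain ⟨f, hf, hf1⟩ := Pool.Agent.N971.EX.value_odd eigen15 W hn1 χ hχ hinv hodd hG w hw hv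
    ha hΔ
  refine ⟨by rw [hΩ]; positivity, ?_⟩
  obtain ⟨y, hyQ, hrel⟩ := hR
  have hr := hrel s _ hsym h13
  have hsum : ∑ a ∈ un n, (w a : ℝ) * (II f15 ((a : ℚ) / n)).im =
      Om / 2 * ((∑ u ∈ un n, w u * s ((u : ℚ) / n) : ℤ) : ℝ) := by
    push_cast
    rw [Finset.mul_sum]
    refine Finset.sum_congr rfl fun a _ => ?_
    rw [him]
    ring
  refine ⟨f, y, hf, hyQ, ?_⟩
  rw [hf1, hsum, hΩ, hT]
  have hr' : (4 : ℝ) * ((∑ u ∈ un n, w u * s ((u : ℚ) / n) : ℤ) : ℝ) =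
      (T : ℝ) * (y : ℝ) ^ 2 := by
    exact_mod_cast hr
  set S : ℝ := ((∑ u ∈ un n, w u * s ((u : ℚ) / n) : ℤ) : ℝ) with hS
  congr 1
  have hS' : S = (T : ℝ) * (y : ℝ) ^ 2 / 4 := by linarith
  rw [hS']
  field_simp
  ring

/-- **odd negative discriminants** -/
theorem negOX {n : ℕ} (hs : Squarefree n) (h4 : n % 4 = 3) (W : WeierstrassCurve ℤ)
    (hc4 : W.c₄ = 481 * (n : ℤ) ^ 2) (hc6 : W.c₆ = -(4879 * (n : ℤ) ^ 3))
    (ha : ∀ p : ℕ, p.Prime → ap W p = ap E15 p * jacobiSym p n)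
    (hΔ : ∀ p : ℕ, p.Prime → ((p : ℤ) ∣ W.Δ ↔ p ∣ 15 ∨ p ∣ n)) {T : ℕ} (hT : tamProd W = T)
    {Q : Prop} (hR : RelX n (fun u => jacobiSym u n) T Q) : ConclX W Q := by
  have hodd : Odd n := Nat.odd_iff.2 (by omega)
  haveI : NeZero n := ⟨by omega⟩
  set d : Pool.Agent.H491R3.J.OS := ⟨n, hodd, hs, by omega⟩ with hd
  have hchi : ∀ m : ℕ, H491R3.J.chi d (m : ZMod n) = ((jacobiSym (m : ℤ) n : ℤ) : ℂ) :=
    H491R3.J.chi_natCast d
  have jz : ∀ p : ℕ, p.Prime → (jacobiSym (p : ℤ) n = 0 ↔ p ∣ n) := by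
    intro p hp
    rw [jacobiSym.eq_zero_iff_not_coprime, Int.gcd_natCast_natCast]
    have h9 : Nat.gcd p n = 1 ↔ ¬ p ∣ n := Nat.Prime.coprime_iff_not_dvd hp
    rw [ne_eq, h9, not_not]
  refine coreY (by omega) W hc4 hc6 (H491R3.J.chi d) (H491R3.J.chi_primitive d)
    (H491R3.J.chi_inv d) ?_ ?_ (fun u => jacobiSym u n) hchi ?_ ha ?_ hT hR
  · have h9 := H491R3.J.chi_neg_one d
    have h10 : ¬ (d.1 % 4 = 1) := by
      change ¬ (n % 4 = 1)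
      omega
    rw [h9, if_neg h10]
  · rw [Pool.Agent.N971.EX.gauss_odd (H491R3.J.chi d) hchi, Pool.Agent.N971.EX.gJ_three hs h4]
  · intro p hp
    by_cases hpn : p ∣ n
    · exact Or.inl ((jz p hp).2 hpn)
    · right
      refine jacobiSym.eq_one_or_neg_one ?_
      rw [Int.gcd_natCast_natCast]
      exact (Nat.Prime.coprime_iff_not_dvd hp).2 hpn
  · intro p hp
    rw [hΔ p hp, jz p hp]

open Pool.Agent.N975.ChE Pool.Agent.N969.P15 in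
/-- **even negative discriminants** -/
theorem negEX {n : ℕ} (hE : Ev n) (W : WeierstrassCurve ℤ)
    (hc4 : W.c₄ = 481 * (n : ℤ) ^ 2) (hc6 : W.c₆ = -(4879 * (n : ℤ) ^ 3))
    (ha : ∀ p : ℕ, p.Prime → ap W p = ap E15 p * chE n p)
    (hΔ : ∀ p : ℕ, p.Prime → ((p : ℤ) ∣ W.Δ ↔ p ∣ 15 ∨ p ∣ n)) {T : ℕ} (hT : tamProd W = T)
    {Q : Prop} (hR : RelX n (fun u => chE n u) T Q) : ConclX W Q := by
  have hm := ev_mod hE
  have hn0 := ev_pos hE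
  haveI : NeZero n := ⟨by omega⟩
  have jz : ∀ p : ℕ, p.Prime → (chE n p = 0 ↔ p ∣ n) := by
    intro p hp
    constructor
    · intro h0
      by_contra hcon
      rcases chE_pm hm ((Nat.Prime.coprime_iff_not_dvd hp).2 hcon) with h | h <;>
        rw [h] at h0 <;> norm_num at h0
    · intro h0
      exact chE_zero hm fun h => hp.one_lt.ne' (Nat.eq_one_of_dvd_coprimes h dvd_rfl h0)
  refine coreY (by omega) W hc4 hc6 (chi n hm) (chi_primitive hE)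
    (chi_inv n hm) ?_ (Pool.Agent.N971.EX.gauss_chE hE (chi n hm) (chi_nat n hm))
    (fun u => chE n u) (chi_nat n hm) ?_ ha ?_ hT hR
  · have h1 : ((n - 1 : ℕ) : ZMod n) = -1 := by
      rw [Nat.cast_sub (by omega), ZMod.natCast_self, Nat.cast_one, zero_sub]
    have h2 : chE n ((n - 1 : ℕ) : ℤ) = -1 := by
      rw [chE_mod hm (u := ((n - 1 : ℕ) : ℤ)) (v := -1) ⟨1, by omega⟩]
      exact Pool.Agent.N975.CHB.chE_neg_one hE
    rw [← h1, chi_nat n hm, h2]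
    norm_num
  · intro p hp
    by_cases hpn : p ∣ n
    · exact Or.inl ((jz p hp).2 hpn)
    · exact Or.inr (chE_pm hm ((Nat.Prime.coprime_iff_not_dvd hp).2 hpn))
  · intro p hp
    rw [hΔ p hp, jz p hp]


end Pool.Agent.N974.T15
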