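import Pool.Agent.N974.T15.Rp
import Pool.Agent.N974.P15G.Sv
import Pool.Agent.N974.P15G.Sio
import Pool.Agent.N973.P15G.Fin

/-!
# Level 15: the normalized central values of the positive discriminants of root number `+1`, and
# the criteria
-/

set_option autoImplicit false

namespace Pool.Agent.N974.T15

open Finset
open Pool.Agent.N969.P15 (un cc)
open Pool.Agent.N969.RQ (Fd R15 R15r J o5)
open Pool.Agent.N973.P15G
open Pool.Agent.N973.P15G.F
open Pool.Agent.N972.GC (CY)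
open Pool.Agent.N974.P15G (sig15 sig_ii sig_io sig_R15 sig_R15r)
open Pool.Agent.N969.BJ15 (t_BILJ15c)
open Pool.Agent.N971.B15 (t_BILJ15n)
open Pool.Agent.N855.RQp (y15 y15r t_ID15)

theorem pow4 (k : ℕ) : (4 : ℝ) ^ k = (2 ^ k) ^ 2 := by
  rw [← pow_mul, mul_comm, pow_mul]
  norm_num

/-- `3` and `5` inert -/
theorem relP_ii {A : ℕ} (hA : Aii A) : RelP A (4 ^ A.primeFactors.card * 8) (CY (-3) A) := by
  obtain ⟨y, h1, -, h3⟩ := exists_y
  obtain ⟨κ, k1, k2⟩ := u_KAPii A hA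
  refine ⟨y A, h3 A (Or.inl hA), ?_⟩
  have hc : Nat.Coprime A 15 := cop15_A (by have := hA.2.1; omega) (by have := hA.2.2; omega)
  have h2 := k2 15 N15_15 hc
  have e15 : cc ((15 : ℕ) : ℤ) = 6 := cc_fifteen
  rw [mul_comm A 15, h1 A hA, e15] at h2
  have h4 : κ = -(2 ^ A.primeFactors.card * y A) ^ 2 := by
    have h5 : ((2 : ℤ) ^ (A.primeFactors.card + 1) * y A) ^ 2 =
        4 * (2 ^ A.primeFactors.card * y A) ^ 2 := by rw [pow_succ]; ring
    rw [h5] at h2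
    linarith
  rw [sig_ii hA k1, h4]
  push_cast
  rw [pow4]
  ring

/-- `3` inert, `5` ramified -/
theorem relP_io {A : ℕ} (hA : Aio A) : RelP A (4 ^ A.primeFactors.card * 4) (CY (-3) A) := by
  obtain ⟨y, -, h2, h3⟩ := exists_y
  refine ⟨y A, h3 A (Or.inr hA), ?_⟩
  have h4 := u_DUAL A hA
  rw [h2 A hA] at h4
  have h5 := congrArg (Int.cast (R := ℝ)) h4
  rw [sig_io hA]
  push_cast at h5 ⊢
  rw [pow4]
  linear_combination -4 * h5

theorem card_pos_of {A : ℕ} (hA : Fd A) : 1 ≤ A.primeFactors.card :=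
  Finset.card_pos.2 (Nat.nonempty_primeFactors.2 hA.1)

/-- `3` and `5` split -/
theorem relP_R15 {A : ℕ} (hA : R15 A) : RelP A (4 ^ A.primeFactors.card * 8) (CY 5 A) := by
  obtain ⟨z, hz, hz2⟩ := y15 t_BILJ15c CP5 t_BILJ15n u_KY15 t_ID15 hA
  refine ⟨z, hz2, ?_⟩
  obtain ⟨k, hk⟩ : ∃ k, A.primeFactors.card = k + 1 :=
    ⟨_, (Nat.succ_pred_eq_of_pos (card_pos_of hA.1)).symm⟩
  rw [hk, Nat.add_sub_cancel] at hz
  rw [sig_R15 t_BILJ15c hA, hz, hk]
  push_cast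
  rw [pow_succ (4 : ℝ) k, pow4]
  ring

theorem card_two {A : ℕ} (hA : R15r A) : 2 ≤ A.primeFactors.card := by
  by_contra hc
  have h1 := card_pos_of hA.1
  have h2 : A.primeFactors.card = 1 := by omega
  obtain ⟨q, hq⟩ := Finset.card_eq_one.1 h2
  have hA0 : A ≠ 0 := by have := hA.1.1; omega
  have h3 : 3 ∈ A.primeFactors := Nat.mem_primeFactors.2 ⟨by norm_num, hA.2.1, hA0⟩
  have hq3 : q = 3 := by
    rw [hq, Finset.mem_singleton] at h3
    exact h3.symm
  subst hq3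
  rcases hA.1.2 with ⟨hs, h4⟩ | ⟨M, h3, -, -⟩
  · have : A = 3 := by
      have h5 := Nat.prod_primeFactors_of_squarefree hs
      rw [hq, Finset.prod_singleton] at h5
      exact h5.symm
    omega
  · have h2A : 2 ∈ A.primeFactors := Nat.mem_primeFactors.2 ⟨Nat.prime_two, by omega, hA0⟩
    rw [hq, Finset.mem_singleton] at h2A
    omega

/-- `3` ramified, `5` split -/
theorem relP_R15r {A : ℕ} (hA : R15r A) : RelP A (4 ^ A.primeFactors.card * 4) (CY 5 A) := by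
  obtain ⟨z, hz, hz2⟩ := y15r t_BILJ15c CP5 t_BILJ15n u_KY15 t_ID15 hA
  refine ⟨z, hz2, ?_⟩
  obtain ⟨k, hk⟩ : ∃ k, A.primeFactors.card = k + 2 := ⟨A.primeFactors.card - 2, by
    have := card_two hA; omega⟩
  rw [hk, Nat.add_sub_cancel] at hz
  rw [sig_R15r t_BILJ15c hA, hz, hk]
  push_cast
  rw [pow_add (4 : ℝ) k 2, pow4]
  ring

end Pool.Agent.N974.T15
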