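import Pool.Agent.N974.T15.Ex4
import Pool.Agent.N974.T15.Val
import Pool.Agent.N871.S15.NisR
import Pool.Agent.N875.S15.Asm
import Pool.Agent.N875.S15.Van

/-!
# Level 15: the exact central values of all the twists
-/

set_option autoImplicit false
set_option linter.style.haveILetI false

open scoped Classical

namespace Pool.Agent.N974.T15

open WeierstrassCurve
open Pool.Agent.N875.X15 (WN Em EQm WNQ Fin2 Ao Ae rel_odd rel_even tamProd_N tamProd_E)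
open Pool.Agent.Y700 (IsL tamProd Omega)
open Pool.Agent.N218.T15 (EE t3 t5)
open Pool.Agent.N218.T21 (Kd)
open Pool.Agent.N809.PQ (B3 B5 Sg15 w15 sg15_parity)
open Pool.Agent.N972.GC (CY CM)
open Pool.Agent.N969.RQ (Fd R15 R15r)
open Pool.Agent.N969.P17G (chP chM)
open Pool.Agent.N969.P15 (un Ev chE)
open Pool.Agent.N973.P15G (Ps Ng QQ Aii Aio Nis chM_odd chM_even)
open Pool.Agent.N875.D15 hiding TT
open Pool.Agent.N875.S15 (TT Kd_odd Kd_even pk_pO pk_pE pk_nO pk_nE fin2_EE w15_cases van)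
open Pool.Agent.N871.S15 (nis_rel)
open Pool.Agent.N974.MF (Symb15)

/-- the class `Nis` -/
theorem relX_Nis {n : ℕ} (hn : Nis n) (h4 : 4 < n) {w : ℕ → ℤ} (hw : ∀ u : ℕ, w u = chM n u) :
    RelX n w (4 ^ n.primeFactors.card * 16) (CM (-3) 5 n) := by
  obtain ⟨y, hy, h⟩ := nis_rel hn h4
  refine ⟨y, hy, fun s a g h1 => ?_⟩
  simp only [hw]
  rw [h s a g, h1, one_mul]

theorem ConclX.congr {W : WeierstrassCurve ℤ} {Q Q' : Prop} (h : ConclX W Q) (e : Q ↔ Q') :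
    ConclX W Q' := by
  obtain ⟨h1, f, y, h2, h3, h4⟩ := h
  exact ⟨h1, f, y, h2, h3.trans e, h4⟩

theorem ConclX.zero {W : WeierstrassCurve ℤ} {Q : Prop}
    (h : 0 < Omega W ∧ ∃ f : ℂ → ℂ, IsL W f ∧ f 1 = 0) (hQ : ¬ Q) : ConclX W Q := by
  obtain ⟨h1, f, h2, h3⟩ := h
  refine ⟨h1, f, 0, h2, ⟨fun h => absurd h (by decide), fun h => absurd h hQ⟩, ?_⟩
  rw [h3]
  norm_num

theorem Kd_pos {A : ℕ} (hA : Ps A) : Kd (mQ A : ℤ) = A := by
  rcases hA with ⟨hs, h4, h1⟩ | ⟨M, rfl, hs, h4⟩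
  · rw [mQ_odd (by omega), Kd_odd (by omega), Int.natAbs_natCast]
  · have e : 4 * M / 4 = M := by omega
    rw [mQ_even (by omega), e, Kd_even (by omega), Int.natAbs_natCast]

theorem Kd_neg {n : ℕ} (hn : Ng n) : Kd (-(mQ n : ℤ)) = n := by
  rcases hn with ⟨hs, h4⟩ | ⟨M, rfl, hs, h4⟩
  · rw [mQ_odd (by omega), Kd_odd (by omega), Int.natAbs_neg, Int.natAbs_natCast]
  · have e : 4 * M / 4 = M := by omega
    rw [mQ_even (by omega), e, Kd_even (by omega), Int.natAbs_neg, Int.natAbs_natCast]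

/-- the residue of `mQ A` modulo `3` and modulo `5` -/
theorem mQ_res {A : ℕ} (h : Ps A ∨ Ng A) :
    (mQ A : ℤ) % 3 = (A : ℤ) % 3 ∧ ((mQ A : ℤ) % 5 = (A : ℤ) % 5 ∨ (mQ A : ℤ) % 5 = (-A : ℤ) % 5) := by
  by_cases h2 : 2 ∣ A
  · have h4 : 4 ∣ A := by
      rcases h with (⟨-, h, -⟩ | ⟨M, rfl, -⟩) | ⟨-, h⟩ | ⟨M, rfl, -⟩ <;> omega
    rw [mQ_even h2]
    omega
  · rw [mQ_odd h2]
    exact ⟨rfl, Or.inl rfl⟩

/-- **positive discriminants** -/
theorem ccx_pos {A : ℕ} (hA : Ps A) {T : ℕ} (hT : TT (mQ A : ℤ) = T) {Q : Prop}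
    (hR : RelP A T Q) : ConclX (EE (mQ A : ℤ)) Q := by
  have hFd := Ps_Fd hA
  rcases hA with ⟨hs, h4, h1⟩ | ⟨M, rfl, hs, h4⟩
  · have h2 : ¬ 2 ∣ A := by omega
    rw [mQ_odd h2] at hT ⊢
    have P := pk_pO hs h4 h1
    exact posOX hs h4 h1 _ P.c4 (by rw [P.c6, one_mul]) P.ap P.dv (P.tam.trans hT) hR
  · have h2 : 2 ∣ 4 * M := by omega
    rw [mQ_even h2] at hT ⊢
    have hE : Pool.Agent.N974.Gen.ChP.Ev (4 * M) := ⟨M, rfl, hs, h4.symm⟩
    have P := pk_pE hE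
    exact posEX hFd h2 _ P.c4 (by rw [P.c6, one_mul]) P.ap P.dv (P.tam.trans hT) hR

/-- **negative discriminants** -/
theorem ccx_neg {n : ℕ} (hn : Ng n) (hn4 : n ≠ 4) {T : ℕ} (hT : TT (-(mQ n : ℤ)) = T) {Q : Prop}
    (hR : ∀ w : ℕ → ℤ, (∀ u : ℕ, w u = chM n u) → RelX n w T Q) :
    ConclX (EE (-(mQ n : ℤ))) Q := by
  rcases hn with ⟨hs, h4⟩ | hE
  · have h2 : ¬ 2 ∣ n := by omega
    rw [mQ_odd h2] at hT ⊢
    have P := pk_nO hs h4
    exact negOX hs h4 _ P.c4 (by rw [P.c6]; ring) P.ap P.dv (P.tam.trans hT)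
      (hR _ fun u => (chM_odd hs h4 u).symm)
  · have h2 : 2 ∣ n := by
      obtain ⟨k, rfl, -⟩ := hE
      omega
    rw [mQ_even h2] at hT ⊢
    have P := pk_nE hE hn4
    exact negEX hE _ P.c4 (by rw [P.c6]; ring) P.ap P.dv (P.tam.trans hT)
      (hR _ fun u => (chM_even hE u).symm)

theorem TT_pos {A : ℕ} (hA : Ps A) {t : ℕ} (h : t3 (mQ A : ℤ) * t5 (mQ A : ℤ) = t) :
    TT (mQ A : ℤ) = 4 ^ A.primeFactors.card * t := by
  unfold TT
  rw [Kd_pos hA, h]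

theorem TT_neg {n : ℕ} (hn : Ng n) {t : ℕ} (h : t3 (-(mQ n : ℤ)) * t5 (-(mQ n : ℤ)) = t) :
    TT (-(mQ n : ℤ)) = 4 ^ n.primeFactors.card * t := by
  unfold TT
  rw [Kd_neg hn, h]

theorem x3 {A : ℕ} (h : Aii A ∨ Aio A) : ConclX (EE (mQ A : ℤ)) (CY (-3) A) := by
  rcases h with h | h
  · obtain ⟨h3, h5⟩ := mQ_res (Or.inl h.1)
    have e3 := h.2.1
    have e5 := h.2.2
    refine ccx_pos h.1 (TT_pos h.1 ?_) (relP_ii h)
    unfold t3 t5
    rw [if_neg (by omega), if_pos (by omega), if_neg (by omega), if_neg (by omega)]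
  · obtain ⟨h3, h5⟩ := mQ_res (Or.inl h.1)
    have e3 := h.2.1
    have e5 := h.2.2
    refine ccx_pos h.1 (TT_pos h.1 ?_) (relP_io h)
    unfold t3 t5
    rw [if_neg (by omega), if_pos (by omega), if_pos (by omega)]

theorem x5 {A : ℕ} (h : R15 A ∨ R15r A) : ConclX (EE (mQ A : ℤ)) (CY 5 A) := by
  rcases h with h | h
  · have hP : Ps A := by
      rcases h.1.2 with ⟨h1, h2⟩ | ⟨M, h1, h2, h3⟩
      · exact Or.inl ⟨h1, h2, h.1.1⟩
      · exact Or.inr ⟨M, h1, h2, h3⟩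
    obtain ⟨h3, h5⟩ := mQ_res (Or.inl hP)
    have e3 := h.2.1
    have e5 := (jac5 A).1 h.2.2
    refine ccx_pos hP (TT_pos hP ?_) (relP_R15 h)
    unfold t3 t5
    rw [if_neg (by omega), if_neg (by omega), if_neg (by omega), if_pos (by omega)]
  · have hP : Ps A := by
      rcases h.1.2 with ⟨h1, h2⟩ | ⟨M, h1, h2, h3⟩
      · exact Or.inl ⟨h1, h2, h.1.1⟩
      · exact Or.inr ⟨M, h1, h2, h3⟩
    obtain ⟨h3, h5⟩ := mQ_res (Or.inl hP)
    have e3 := h.2.1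
    have e5 := (jac5 A).1 h.2.2
    refine ccx_pos hP (TT_pos hP ?_) (relP_R15r h)
    unfold t3 t5
    rw [if_pos (by omega), if_neg (by omega), if_pos (by omega)]

theorem xm {n : ℕ} (h : Nis n) (h4 : n ≠ 4) : ConclX (EE (-(mQ n : ℤ))) (CM (-3) 5 n) := by
  obtain ⟨h3, h5⟩ := mQ_res (Or.inr h.1)
  have e3 := h.2.1
  have e5 := h.2.2
  have hlt : 4 < n := by
    rcases h.1 with ⟨-, h6⟩ | ⟨k, rfl, h6, h7⟩
    · omega
    · omega
  refine ccx_neg h.1 h4 (TT_neg h.1 ?_) fun w hw => relX_Nis h hlt hw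
  unfold t3 t5
  rw [if_neg (by omega), if_pos (by omega), if_neg (by omega), if_pos (by omega)]

/-- the old family -/
theorem x_old {n : ℕ} (hn : Ng n) (c3 : n % 3 ≠ 1) (c5 : n % 5 = 0 ∨ n % 5 = 2 ∨ n % 5 = 3) :
    ConclX (EE (-(mQ n : ℤ))) (QQ n) := by
  rcases hn with ⟨h1, h2⟩ | h1
  · have h2' : ¬ 2 ∣ n := by omega
    rw [mQ_odd h2']
    have hA : Ao n := ⟨h1, h2, c3, c5⟩
    have e : EE (-(n : ℤ)) = WN (-(n : ℤ)) := if_pos (by omega)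
    have P := pk_nO h1 h2
    refine (negOX h1 h2 _ P.c4 (by rw [P.c6]; ring) P.ap P.dv (by rw [e]; exact tamProd_N hA)
      (relX_of (rel_odd hA) rfl)).congr ⟨fun h => Or.inl ⟨h, h2'⟩, ?_⟩
    rintro (⟨h, -⟩ | ⟨-, h⟩)
    · exact h
    · exact absurd h h2'
  · have h2' : 2 ∣ n := by
      obtain ⟨k, rfl, -⟩ := h1
      omega
    rw [mQ_even h2']
    have hA : Ae n := ⟨h1, c3, c5⟩
    have hn4 : n ≠ 4 := by
      rintro rfl
      omega
    have e : EE (-((n / 4 : ℕ) : ℤ)) = Em (-((n / 4 : ℕ) : ℤ)) := if_neg (by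
      obtain ⟨k, rfl, -, hk⟩ := h1
      have e4 : 4 * k / 4 = k := by omega
      rw [e4]
      omega)
    have P := pk_nE h1 hn4
    refine (negEX h1 _ P.c4 (by rw [P.c6]; ring) P.ap P.dv (by rw [e]; exact tamProd_E hA)
      (relX_of (rel_even hA) rfl)).congr ⟨fun h => Or.inr ⟨h, h2'⟩, ?_⟩
    rintro (⟨-, h⟩ | ⟨h, -⟩)
    · exact absurd h2' h
    · exact h

theorem ccx_all {m : ℤ} (hs : Squarefree m) (h1 : m ≠ 1) (h2 : m ≠ -1) :
    ConclX (EE m) (Sg15 m) := by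
  rcases w15_cases m with hw | hw
  swap
  · refine ConclX.zero (van hs hw) fun hS => ?_
    rw [sg15_parity hs h1 h2 hS] at hw
    norm_num at hw
  have hm0 := hs.ne_zero
  unfold w15 at hw
  rcases lt_or_gt_of_ne hm0 with hneg | hpos
  · obtain ⟨n, hn, rfl⟩ := exists_Ng hs hneg
    have h1n : mQ n ≠ 1 := by
      intro h
      rw [h] at h2
      exact h2 rfl
    have hn4 : n ≠ 4 := by
      rintro rfl
      exact h1n rfl
    rw [if_pos hneg] at hw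
    have e3 := B3_neg hn
    have e5 := B5_neg hn
    by_cases h3 : B3 (-(mQ n : ℤ))
    · have h5 : B5 (-(mQ n : ℤ)) := by
        by_contra h5
        rw [if_pos (id h3 : _ % (3 : ℤ) = 2),
          if_neg (id h5 : ¬ (_ % (5 : ℤ) = 1 ∨ _ % (5 : ℤ) = 4))] at hw
        norm_num at hw
      exact (xm ⟨hn, e3.1 h3, e5.1 h5⟩ hn4).congr
        ⟨sg_of_cm hn hs h1n h3 h5, cm_of_sg hn h3 h5⟩
    · have h5 : ¬ B5 (-(mQ n : ℤ)) := by
        intro h5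
        rw [if_neg (id h3 : ¬ _ % (3 : ℤ) = 2),
          if_pos (id h5 : _ % (5 : ℤ) = 1 ∨ _ % (5 : ℤ) = 4)] at hw
        norm_num at hw
      obtain ⟨c3, c5⟩ := cls_neg hn h3 h5
      exact (x_old hn c3 c5).congr ⟨sg_of_qq hn hs h3 h5, qq_of_sg hn h3 h5 hs⟩
  · obtain ⟨A, hA, rfl⟩ := exists_Ps hs (by omega)
    rw [if_neg (by omega)] at hw
    have e3 := B3_pos hA
    have e5 := B5_pos hA
    by_cases h3 : B3 (mQ A : ℤ)
    · have h5 : ¬ B5 (mQ A : ℤ) := by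
        intro h5
        rw [if_pos (id h3 : _ % (3 : ℤ) = 2),
          if_pos (id h5 : _ % (5 : ℤ) = 1 ∨ _ % (5 : ℤ) = 4)] at hw
        norm_num at hw
      refine (x3 (A := A) ?_).congr (sg_iff_cy hA hs (Or.inl ⟨rfl, h3, h5⟩)).symm
      rw [e5] at h5
      rw [e3] at h3
      by_cases h50 : A % 5 = 0
      · exact Or.inr ⟨hA, h3, by omega⟩
      · exact Or.inl ⟨hA, h3, by omega⟩
    · have h5 : B5 (mQ A : ℤ) := by
        by_contra h5
        rw [if_neg (id h3 : ¬ _ % (3 : ℤ) = 2),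
          if_neg (id h5 : ¬ (_ % (5 : ℤ) = 1 ∨ _ % (5 : ℤ) = 4))] at hw
        norm_num at hw
      refine (x5 (A := A) ?_).congr (sg_iff_cy hA hs (Or.inr ⟨rfl, h3, h5⟩)).symm
      rw [e5] at h5
      rw [e3] at h3
      by_cases h30 : A % 3 = 0
      · exact Or.inr ⟨Ps_Fd hA, by omega, (jac5 A).2 h5⟩
      · exact Or.inl ⟨Ps_Fd hA, by omega, (jac5 A).2 h5⟩

/-- **The central values of all the twists of `X_0(15)`, exactly.** -/
theorem exact15 {m : ℤ} (hs : Squarefree m) (h1 : m ≠ 1) (h2 : m ≠ -1) :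
    0 < Omega (EE m) ∧ ∃ (f : ℂ → ℂ) (y : ℤ), IsL (EE m) f ∧
      (Odd y ↔ Fin2 ((EE m).map (Int.castRingHom ℚ))) ∧
      f 1 = (((y : ℝ) ^ 2 * (Omega (EE m) * tamProd (EE m) / 16) : ℝ) : ℂ) := by
  have e : Sg15 m ↔ Fin2 ((EE m).map (Int.castRingHom ℚ)) := by
    rw [fin2_EE hs, Pool.Agent.N875.D15.fin2_iff_sg15 hs]
    exact ⟨Or.inl, fun h => h.resolve_right (by rintro (h | h); exacts [h1 h, h2 h])⟩
  exact (ccx_all hs h1 h2).congr e

end Pool.Agent.N974.T15
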