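import Pool.Agent.N974.P15G.Sg

/-!
# Level 15: the shape of the central values of the positive discriminants
-/

set_option autoImplicit false

namespace Pool.Agent.N974.T15

open Pool.Agent.N974.P15G (sig15)

/-- the central value of the twist by the discriminant `n > 0` -/
def RelP (n T : ℕ) (Q : Prop) : Prop := ∃ y : ℤ, (Odd y ↔ Q) ∧ 8 * sig15 n = -(T * (y : ℝ) ^ 2)

end Pool.Agent.N974.T15
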