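import Pool.Agent.Y700.Fin
import Pool.Agent.N971.EX.Val
import Pool.Agent.N971.EX.Per17
import Pool.Agent.N971.EX.Gs2
import Pool.Agent.N975.CHB
import Pool.Agent.N974.T15.Rp
import Pool.Agent.N975.Lat15

/-!
# Level 15, all discriminants: the scale of the even symbol and the central values
-/

set_option autoImplicit false
set_option linter.style.haveILetI false

open Complex Filter Topology Set UpperHalfPlane MatrixGroups CongruenceSubgroup ZMod

namespace Pool.Agent.N974.T15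

open Pool.Agent.N974.Gen
open Pool.Agent.N974.GN (eigen15)
open Pool.Agent.N974.MF (E15 f15 f15_apply)
open Pool.Agent.N969.P15 (un)
open Pool.Agent.N969.P17G (chP)
open Pool.Agent.N969.RQ (Fd)
open Pool.Agent.W97.MT (ap)
open Pool.Agent.Y700 (IsL tamProd Omega)
open Pool.Agent.N974.P15G (sig15 ky15 sy15 sig15_mul)
open Pool.Agent.N974.RQ (chP_odd ev_of odd_of)

lemma odd_val {z : ℤ} (h : Odd z) : padicValRat 2 (z : ℚ) = 0 := by
  rw [padicValRat.of_int]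
  have : padicValInt 2 z = 0 := by
    refine padicValInt.eq_zero_of_not_dvd ?_
    intro hd
    have h5 := Int.odd_iff.1 h
    omega
  rw [this]
  rfl

/-- the two definitions of the integrals agree -/
theorem II_eq (r : ℚ) : II f15 r = Pool.Agent.N974.MF.II r := by
  unfold II Pool.Agent.N974.MF.II
  congr 1
  refine MeasureTheory.setIntegral_congr_fun measurableSet_Ioi fun t ht => ?_
  have ht' : (0 : ℝ) < t := ht
  have him : 0 < ((r : ℂ) + t * Complex.I).im := by simpa using ht'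
  show ff f15 _ = _
  unfold ff
  rw [ofComplex_apply_of_im_pos him, f15_apply]

/-- **the scale of the even symbol** -/
theorem scale15 (L : PeriodPair) (Op Om : ℝ) (hOm : 0 < Om)
    (g2 : L.g₂ = 481 / 12) (g3 : L.g₃ = 4879 / 216)
    (hL : ∀ w : ℂ, w ∈ L.lattice ↔ ∃ a b : ℤ, w = a * Op + b * Om * Complex.I) :
    ∃ m : ℤ, Odd m ∧ ky15 = m * Op := by
  obtain ⟨-, k15, -⟩ := Pool.Agent.N974.MF.integrals L g2 g3
  obtain ⟨z1, z2, z4, -, -⟩ := k15 0 (by simp) (by simp)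
  have z0 := Pool.Agent.N974.MF.II_zero_im
  obtain ⟨a, b, hab⟩ := (hL _).1 z4
  have h1 := congrArg Complex.im hab
  have h2 : b = 0 := by
    simp [z0] at h1
    rcases h1 with h1 | h1
    · exact h1
    · exact absurd h1 hOm.ne'
  have hodd : Odd a := by
    rw [← Int.not_even_iff_odd]
    rintro ⟨k, hk⟩
    apply z2
    refine (hL _).2 ⟨k, 0, ?_⟩
    have h3 : (4 : ℂ) * Pool.Agent.N974.MF.II 0 = (k + k) * Op := by
      rw [hab, h2, hk]; push_cast; ring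
    linear_combination (1 / 2 : ℂ) * h3
  have h3 : 4 * (II f15 0).re = a * Op := by
    have := congrArg Complex.re hab
    rw [h2, ← II_eq] at this
    simpa using this
  refine ⟨-a, hodd.neg, ?_⟩
  have P := symbP eigen15 (by norm_num : 1 < 15)
  have h4 := P.hecke 2 Nat.prime_two (by norm_num) 0
  have e2 : ap E15 2 = -1 := Pool.Agent.N974.MF.ap2
  simp only [Finset.sum_range_succ, Finset.sum_range_zero] at h4
  rw [e2] at h4
  norm_num at h4
  show (II f15 (1 / 2)).re - (II f15 0).re = _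
  push_cast
  linarith

/-- the conclusion -/
def Concl (W : WeierstrassCurve ℤ) (Q : Prop) : Prop := 0 < Omega W ∧
    ∃ (f : ℂ → ℂ) (v : ℚ) (y : ℤ), IsL W f ∧ v ≠ 0 ∧ padicValRat 2 v = 0 ∧ (Odd y ↔ Q) ∧
      f 1 = (((v : ℝ) * (y : ℝ) ^ 2 * (Omega W * tamProd W /
        (Nat.card (AddCommGroup.torsion (W.map (Int.castRingHom ℚ)).toAffine.Point) : ℝ) ^ 2) : ℝ) :
          ℂ)

/-- the torsion has order four times an odd number -/
def Tor4 (W : WeierstrassCurve ℤ) : Prop := ∃ t : ℕ, Odd t ∧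
  Nat.card (AddCommGroup.torsion (W.map (Int.castRingHom ℚ)).toAffine.Point) = 4 * t

/-- **positive discriminants** -/
theorem coreP {n : ℕ} [NeZero n] (hn1 : 1 < n) (W : WeierstrassCurve ℤ)
    (h4 : W.c₄ = 481 * (n : ℤ) ^ 2) (h6 : W.c₆ = 4879 * (n : ℤ) ^ 3)
    (χ : DirichletCharacter ℂ n) (hχ : χ.IsPrimitive) (hinv : χ⁻¹ = χ) (heven : χ (-1) = 1)
    (hG : gaussSum χ (stdAddChar (N := n)) = ((Real.sqrt n : ℝ) : ℂ))
    (w : ℕ → ℤ) (hw : ∀ u : ℕ, χ (u : ZMod n) = (w u : ℂ))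
    (hv : ∀ p : ℕ, p.Prime → w p = 0 ∨ w p = 1 ∨ w p = -1)
    (ha : ∀ p : ℕ, p.Prime → ap W p = ap E15 p * w p)
    (hΔ : ∀ p : ℕ, p.Prime → ((p : ℤ) ∣ W.Δ ↔ p ∣ 15 ∨ w p = 0)) {T : ℕ} (hT : tamProd W = T)
    (htor : Tor4 W) {Q : Prop}
    (hs : ∑ u ∈ un n, (w u : ℝ) * (II f15 ((u : ℚ) / n)).re = ky15 * sig15 n)
    (hR : RelP n T Q) : Concl W Q := by
  have hn0 : (0 : ℝ) < n := by exact_mod_cast (by omega : 0 < n)
  have hsn : (0 : ℝ) < √(n : ℝ) := Real.sqrt_pos.2 hn0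
  have hlat : Pool.Agent.N974.MF.S_LAT := Pool.Agent.N975.Lat15.s_lat
  obtain ⟨L, Op, Om, hOp, hOm, g2, g3, hL⟩ := hlat
  obtain ⟨m, hm, hky⟩ := scale15 L Op Om hOm g2 g3 hL
  have hΩ : Omega W = 2 * Op / √n := Pool.Agent.N971.EX.omega_pos L Op Om hOp hOm
    (c4 := 481) (c6 := 4879) (by rw [g2]; push_cast; rfl) (by rw [g3]; push_cast; rfl) hL n
    (by omega) W h4 h6
  obtain ⟨f, hf, hf1⟩ := Pool.Agent.N971.EX.value_even eigen15 W hn1 χ hχ hinv heven hG w hw hv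
    ha hΔ
  refine ⟨by rw [hΩ]; positivity, ?_⟩
  obtain ⟨y, hyQ, hy⟩ := hR
  obtain ⟨t, ht, htor⟩ := htor
  have : Fact (Nat.Prime 2) := ⟨Nat.prime_two⟩
  have hzo : Odd (-m * (t : ℤ) ^ 2) := hm.neg.mul ((Int.odd_coe_nat t).2 ht).pow
  have hz0 : -m * (t : ℤ) ^ 2 ≠ 0 := by
    intro h0
    rw [h0] at hzo
    exact absurd hzo (by decide)
  have ht0 : (t : ℝ) ≠ 0 := by
    have : t ≠ 0 := by rintro rfl; exact absurd ht (by decide)
    exact_mod_cast this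
  refine ⟨f, ((-m * (t : ℤ) ^ 2 : ℤ) : ℚ), y, hf, by exact_mod_cast hz0, odd_val hzo, hyQ, ?_⟩
  rw [hf1, hs, hky, hΩ, htor, hT]
  congr 1
  have hs' : sig15 n = -(T * (y : ℝ) ^ 2) / 8 := by linarith
  rw [hs']
  push_cast
  field_simp
  ring

/-- **odd positive discriminants** -/
theorem posO {n : ℕ} (hs : Squarefree n) (h4 : n % 4 = 1) (h1 : 1 < n) (W : WeierstrassCurve ℤ)
    (hc4 : W.c₄ = 481 * (n : ℤ) ^ 2) (hc6 : W.c₆ = 4879 * (n : ℤ) ^ 3)
    (ha : ∀ p : ℕ, p.Prime → ap W p = ap E15 p * jacobiSym p n)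
    (hΔ : ∀ p : ℕ, p.Prime → ((p : ℤ) ∣ W.Δ ↔ p ∣ 15 ∨ p ∣ n)) {T : ℕ} (hT : tamProd W = T)
    (htor : Tor4 W) {Q : Prop} (hR : RelP n T Q) : Concl W Q := by
  have hodd : Odd n := Nat.odd_iff.2 (by omega)
  haveI : NeZero n := ⟨by omega⟩
  set d : Pool.Agent.H491R3.J.OS := ⟨n, hodd, hs, by omega⟩ with hd
  have hchi : ∀ m : ℕ, H491R3.J.chi d (m : ZMod n) = ((jacobiSym (m : ℤ) n : ℤ) : ℂ) :=
    H491R3.J.chi_natCast d
  have jz : ∀ p : ℕ, p.Prime → (jacobiSym (p : ℤ) n = 0 ↔ p ∣ n) := by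
    intro p hp
    rw [jacobiSym.eq_zero_iff_not_coprime, Int.gcd_natCast_natCast]
    have h9 : Nat.gcd p n = 1 ↔ ¬ p ∣ n := Nat.Prime.coprime_iff_not_dvd hp
    rw [ne_eq, h9, not_not]
  refine coreP h1 W hc4 hc6 (H491R3.J.chi d) (H491R3.J.chi_primitive d)
    (H491R3.J.chi_inv d) ?_ ?_ (fun u => jacobiSym u n) hchi ?_ ha ?_ hT htor ?_ hR
  · have h9 := H491R3.J.chi_neg_one d
    have h10 : d.1 % 4 = 1 := h4
    rw [h9, if_pos h10]
  · rw [Pool.Agent.N971.EX.gauss_odd (H491R3.J.chi d) hchi, Pool.Agent.N971.EX.gJ_one hs h4]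
  · intro p hp
    by_cases hpn : p ∣ n
    · exact Or.inl ((jz p hp).2 hpn)
    · right
      refine jacobiSym.eq_one_or_neg_one ?_
      rw [Int.gcd_natCast_natCast]
      exact (Nat.Prime.coprime_iff_not_dvd hp).2 hpn
  · intro p hp
    rw [hΔ p hp, jz p hp]
  · rw [sig15_mul]
    refine Finset.sum_congr rfl fun u _ => ?_
    rw [chP_odd hs (by omega)]
    rfl

open Pool.Agent.N974.Gen.ChP in
/-- **even positive discriminants** -/
theorem posE {n : ℕ} (hn : Fd n) (h2 : 2 ∣ n) (W : WeierstrassCurve ℤ)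
    (hc4 : W.c₄ = 481 * (n : ℤ) ^ 2) (hc6 : W.c₆ = 4879 * (n : ℤ) ^ 3)
    (ha : ∀ p : ℕ, p.Prime → ap W p = ap E15 p * chP n p)
    (hΔ : ∀ p : ℕ, p.Prime → ((p : ℤ) ∣ W.Δ ↔ p ∣ 15 ∨ p ∣ n)) {T : ℕ} (hT : tamProd W = T)
    (htor : Tor4 W) {Q : Prop} (hR : RelP n T Q) : Concl W Q := by
  have hE := ev_of hn h2
  have hm := ev_mod hE
  have hn0 : 0 < n := by have := hn.1; omega
  haveI : NeZero n := ⟨by omega⟩
  have hP : ∀ u : ℤ, chP n u = Pool.Agent.N974.Gen.ChP.chE n u :=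
    fun u => Pool.Agent.N974.PG.chP_eq hE u
  have hchi : ∀ m : ℕ, chi n hm (m : ZMod n) = ((chP n (m : ℤ) : ℤ) : ℂ) := by
    intro m
    rw [chi_nat, hP]
  have jz : ∀ p : ℕ, p.Prime → (chP n p = 0 ↔ p ∣ n) := by
    intro p hp
    rw [hP]
    constructor
    · intro h0
      by_contra hcon
      rcases chE_pm hm ((Nat.Prime.coprime_iff_not_dvd hp).2 hcon) with h | h <;>
        rw [h] at h0 <;> norm_num at h0
    · intro h0
      exact chE_zero hm fun h => hp.one_lt.ne' (Nat.eq_one_of_dvd_coprimes h dvd_rfl h0)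
  refine coreP hn.1 W hc4 hc6 (chi n hm) (chi_primitive hE)
    (chi_inv n hm) ?_ ?_ (fun u => chP n u) hchi ?_ ha ?_ hT htor ?_ hR
  · have h1 : ((n - 1 : ℕ) : ZMod n) = -1 := by
      rw [Nat.cast_sub (by omega), ZMod.natCast_self, Nat.cast_one, zero_sub]
    have h2 : chP n ((n - 1 : ℕ) : ℤ) = 1 := by
      rw [hP, chE_mod hm (u := ((n - 1 : ℕ) : ℤ)) (v := -1) ⟨1, by omega⟩]
      exact Pool.Agent.N974.PG.chE_neg_one hE
    rw [← h1, hchi, h2]
    norm_num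
  · obtain ⟨m, rfl, hs, h5⟩ := hE
    exact Pool.Agent.N971.EX.gauss_chP hs h5.symm (chi (4 * m) hm) hchi
  · intro p hp
    by_cases hpn : p ∣ n
    · exact Or.inl ((jz p hp).2 hpn)
    · right
      show chP n p = 1 ∨ chP n p = -1
      rw [hP]
      exact chE_pm hm ((Nat.Prime.coprime_iff_not_dvd hp).2 hpn)
  · intro p hp
    rw [hΔ p hp]
    show _ ↔ _ ∨ chP n p = 0
    rw [jz p hp]
  · rw [sig15_mul]
    rfl

end Pool.Agent.N974.T15
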