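import Pool.Agent.N971.EX.Scale
import Pool.Agent.N974.T15.Sc
import Pool.Agent.N974.P15G.Sio

/-!
# Level 15: the exact scale of the even symbol
-/

set_option autoImplicit false
set_option linter.unusedSectionVars false

open UpperHalfPlane MatrixGroups CongruenceSubgroup Filter Topology MeasureTheory Set

namespace Pool.Agent.N974.T15

open Pool.Agent.N974.Gen
open Pool.Agent.N974.GN (eigen15 cmp15 evenHom EvenHom X)
open Pool.Agent.N974.MF (f15 f15_apply X1 X1_diff X1_inv deriv_X1 RR_sq X1_q xi_analytic RR)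
open Pool.Agent.N974.P15G (ky15 sy15 ky15_ne X9)
open Pool.Agent.N973.P15G (Fd k9 wt_k9 par_k9 X_k9)
open Pool.Agent.N971.EX (mkL scale scale_im)
open Pool.Agent.W97.MT (qq qq_ne iI iI_pos)

theorem ff_eq {z : ℂ} (hz : 0 < z.im) : ff f15 z = Pool.Agent.N974.MF.ff z := by
  unfold ff
  rw [ofComplex_apply_of_im_pos hz, f15_apply]

/-- the parametrisation of the elliptic curve by the modular curve of level `15` -/
theorem param15 (L : PeriodPair) (g2 : L.g₂ = 481 / 12) (g3 : L.g₃ = 4879 / 216) :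
    Param f15 L (fun z => X1 z - 7 / 12) where
  diff := fun z hz => (X1_diff hz).sub_const _
  inv := by
    intro a b c d h z hz
    have h1 := X1_inv a b c d (by exact_mod_cast h) z hz
    simp only [Nat.cast_ofNat] at *
    rw [h1]
  ode := by
    intro z hz
    have h1 : deriv (fun z => X1 z - 7 / 12) z = deriv X1 z := deriv_sub_const _
    rw [h1, deriv_X1 hz, ff_eq hz, mul_pow, RR_sq hz, g2, g3]
    ring
  exp := by
    refine ⟨fun q => Pool.Agent.N974.MF.xi q - 7 / 12 * q ^ 2, ?_, ?_, ?_⟩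
    · have := xi_analytic
      fun_prop
    · simp [Pool.Agent.N974.MF.xi_zero]
    · filter_upwards [iI_pos] with z hz
      rw [X1_q hz]
      have := qq_ne z
      field_simp
  one := eigen15.one

theorem hcusp15 (L : PeriodPair) (g2 : L.g₂ = 481 / 12) (g3 : L.g₃ = 4879 / 216) (r : ℚ)
    (hr : ¬ ((15 : ℕ) : ℤ) ∣ r.den) : II f15 r ∉ L.lattice := by
  obtain ⟨-, k15, k3, k5, -, -⟩ := Pool.Agent.N974.MF.integrals L g2 g3
  rw [II_eq]
  by_cases h3 : (3 : ℤ) ∣ r.den
  · by_cases h5 : (5 : ℤ) ∣ r.den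
    · exfalso
      apply hr
      push_cast
      omega
    · exact (k3 r h3 h5).1
  · by_cases h5 : (5 : ℤ) ∣ r.den
    · exact (k5 r h3 h5).1
    · exact (k15 r h3 h5).1

section sc

variable {N : ℕ} [NeZero N] {f : CuspForm (Gamma0 N : Subgroup (GL (Fin 2) ℝ)) 2}

/-- **The real parts of the periods have no common factor** (rectangular lattices). -/
theorem scale_re {L : PeriodPair} {X : ℂ → ℂ} (h : Param f L X)
    (hcusp : ∀ r : ℚ, ¬ (N : ℤ) ∣ r.den → II f r ∉ L.lattice)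
    {Op Om : ℝ} (hOp : Op ≠ 0) (hOm : Om ≠ 0)
    (hL : ∀ w : ℂ, w ∈ L.lattice ↔ ∃ a b : ℤ, w = a * Op + b * Om * Complex.I) (k : ℤ)
    (hk : ∀ (a b c d : ℤ), a * d - b * ((N : ℤ) * c) = 1 → ∀ p : ℂ,
      (∀ z : ℂ, 0 < z.im → F f ((a * z + b) / ((N : ℂ) * c * z + d)) = F f z + p) →
      ∃ m : ℤ, p.re = m * (k * Op)) : k = 1 ∨ k = -1 := by
  obtain ⟨k', hk', hkk⟩ : ∃ k' : ℤ, k' ≠ 0 ∧ ((k = 0 ∧ k' = 2) ∨ k' = k) := by
    by_cases h0 : k = 0
    · exact ⟨2, by norm_num, Or.inl ⟨h0, rfl⟩⟩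
    · exact ⟨k, h0, Or.inr rfl⟩
  have hv : ((Om : ℂ) * Complex.I).im ≠ 0 := by simpa using hOm
  have hO' : (k' : ℝ) * Op ≠ 0 := mul_ne_zero (by exact_mod_cast hk') hOp
  have hm : ∀ w : ℂ, w ∈ (mkL ((k' : ℝ) * Op) ((Om : ℂ) * Complex.I) hO' hv).lattice ↔
      ∃ a b : ℤ, w = a * (k' * Op) + b * (Om * Complex.I) := by
    intro w
    rw [PeriodPair.mem_lattice]
    constructor
    · rintro ⟨a, b, rfl⟩
      exact ⟨a, b, by simp [mkL]⟩
    · rintro ⟨a, b, rfl⟩
      exact ⟨a, b, by simp [mkL]⟩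
  have key := scale h hcusp (mkL ((k' : ℝ) * Op) ((Om : ℂ) * Complex.I) hO' hv)
    (fun w hw => by
      obtain ⟨a, b, rfl⟩ := (hm w).1 hw
      exact (hL _).2 ⟨a * k', b, by push_cast; ring⟩) (fun a b c d hdet p hp => by
      have hpL := period_mem h hdet hp
      obtain ⟨x, y, hxy⟩ := (hL p).1 hpL
      obtain ⟨m, hm1⟩ := hk a b c d hdet p hp
      have hre : p.re = x * Op := by rw [hxy]; simp
      rw [hre] at hm1
      have h2 : (x : ℝ) = m * k := by
        have h3 : (x : ℝ) * Op = (m * k) * Op := by rw [hm1]; ring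
        exact mul_right_cancel₀ hOp h3
      have h3 : x = m * k := by exact_mod_cast h2
      refine (hm p).2 ?_
      rcases hkk with ⟨h0, -⟩ | h0
      · refine ⟨0, y, ?_⟩
        rw [hxy, h3, h0]
        push_cast
        ring
      · refine ⟨m, y, ?_⟩
        rw [hxy, h3, h0]
        push_cast
        ring) (Op : ℂ) ((hL _).2 ⟨1, 0, by push_cast; ring⟩)
  obtain ⟨a, b, hab⟩ := (hm _).1 key
  have hre := congrArg Complex.re hab
  have h1 : Op = a * (k' * Op) := by simpa using hre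
  have h2 : (1 : ℝ) = a * k' := by
    have h3 : (1 : ℝ) * Op = (a * k') * Op := by rw [one_mul]; linarith
    exact mul_right_cancel₀ hOp h3
  have h3 : (1 : ℤ) = a * k' := by exact_mod_cast h2
  have h4 := Int.isUnit_iff.1 (IsUnit.of_mul_eq_one a (by rw [mul_comm]; exact h3.symm : k' * a = 1))
  rcases hkk with ⟨-, h0⟩ | h0
  · rw [h0] at h4
    omega
  · rw [← h0]
    exact h4

end sc

/-- the real symbol is an integral multiple of its unit -/
theorem sy_mul {a b c d : ℤ} (h : a * d - 15 * (b * c) = 1) :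
    sy15 ((b : ℚ) / d) - sy15 0 = -(Fd a (15 * c) : ℝ) * ky15 := by
  have P := symbP eigen15 (by norm_num : 1 < 15)
  have h2 := cmp15 P (EvenHom.cast (evenHom wt_k9 par_k9)) h
  rw [X9, X_k9] at h2
  push_cast at h2
  have h3 : ky15 * (4 * (Fd a (15 * c) : ℝ)) = -4 * (sy15 ((b : ℚ) / d) - sy15 0) := h2
  linarith

/-- the real parts of the periods -/
theorem re_period {a b c d : ℤ} (hdet : a * d - b * (((15 : ℕ) : ℤ) * c) = 1) {p : ℂ}
    (hp : ∀ z : ℂ, 0 < z.im → F f15 ((a * z + b) / (((15 : ℕ) : ℂ) * c * z + d)) = F f15 z + p) :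
    p.re = -(Fd a (15 * c) : ℝ) * ky15 := by
  have hd : a * d - 15 * (b * c) = 1 := by
    push_cast at hdet
    linarith
  have hd0 : d ≠ 0 := by
    rintro rfl
    have h1 : (15 : ℤ) ∣ 1 := ⟨-(b * c), by linarith⟩
    norm_num at h1
  have hdq : (d : ℚ) ≠ 0 := by exact_mod_cast hd0
  have h1 := II_gamma f15 hdet hp 0 (by simpa using hdq)
  simp only [mul_zero, zero_add] at h1
  rw [← sy_mul hd]
  show p.re = (II f15 ((b : ℚ) / d)).re - (II f15 0).re
  rw [h1]
  simp

/-- **the scale of the even symbol, up to sign** -/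
theorem scale15' (L : PeriodPair) (Op Om : ℝ) (hOp : 0 < Op) (hOm : 0 < Om)
    (g2 : L.g₂ = 481 / 12) (g3 : L.g₃ = 4879 / 216)
    (hL : ∀ w : ℂ, w ∈ L.lattice ↔ ∃ a b : ℤ, w = a * Op + b * Om * Complex.I) :
    ky15 = Op ∨ ky15 = -Op := by
  obtain ⟨m, hm, hky⟩ := scale15 L Op Om hOm g2 g3 hL
  have h := scale_re (param15 L g2 g3) (hcusp15 L g2 g3) hOp.ne' hOm.ne' hL m
    (fun a b c d hdet p hp => ⟨-Fd a (15 * c), by
      rw [re_period hdet hp, hky]
      push_cast
      ring⟩)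
  rcases h with h | h
  · left
    rw [hky, h]
    simp
  · right
    rw [hky, h]
    simp

end Pool.Agent.N974.T15
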