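import Pool.Agent.N974.T15.Ex1

/-!
# Level 15: the sign of the even symbol
-/

set_option autoImplicit false
set_option linter.unusedSectionVars false

open UpperHalfPlane MatrixGroups CongruenceSubgroup Filter Topology MeasureTheory Set

namespace Pool.Agent.N974.T15

open Pool.Agent.N974.Gen (II symbP)
open Pool.Agent.N974.GN (eigen15)
open Pool.Agent.N974.MF (f15 E15 ff ff_ne ff_cont phi phi_diff)
open Pool.Agent.N974.P15G (ky15 sy15 ky15_ne)
open Pool.Agent.W97.MT (qq qq_ne iI iI_pos ap)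

theorem ky_II : ky15 = -(4 * (II f15 0).re) := by
  have P := symbP eigen15 (by norm_num : 1 < 15)
  have h4 := P.hecke 2 Nat.prime_two (by norm_num) 0
  have e2 : ap E15 2 = -1 := Pool.Agent.N974.MF.ap2
  simp only [Finset.sum_range_succ, Finset.sum_range_zero] at h4
  rw [e2] at h4
  norm_num at h4
  show (II f15 (1 / 2)).re - (II f15 0).re = _
  linarith

/-- the form is real on the imaginary axis -/
theorem ff_im {t : ℝ} (ht : 0 < t) : (ff (t * Complex.I)).im = 0 := by
  have h := Pool.Agent.N974.MF.ff_conj (z := t * Complex.I) (by simpa using ht)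
  have e : -(starRingEnd ℂ) ((t : ℂ) * Complex.I) = t * Complex.I := by
    rw [map_mul, Complex.conj_I, Complex.conj_ofReal]
    ring
  rw [e] at h
  have h1 := congrArg Complex.im h
  rw [Complex.conj_im] at h1
  linarith

theorem ff_re_ne {t : ℝ} (ht : 0 < t) : (ff (t * Complex.I)).re ≠ 0 := by
  intro h
  apply ff_ne (z := t * Complex.I) (by simpa using ht)
  exact Complex.ext h (ff_im ht)

theorem ff_ev : ∃ T : ℝ, 0 < T ∧ ∀ t : ℝ, T ≤ t → 0 < (ff (t * Complex.I)).re := by
  have hc : ContinuousAt phi 0 :=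
    (phi_diff.differentiableAt (Metric.ball_mem_nhds _ one_pos)).continuousAt
  have h0 : phi 0 = 1 := Pool.Agent.N974.MF.phi_zero
  have h1 : Tendsto (fun z => (phi (qq z)).re) iI (𝓝 1) := by
    have h2 := (Complex.continuous_re.continuousAt.tendsto.comp hc.tendsto).comp
      Pool.Agent.W97.MT.tendsto_qq
    simp only [h0, Complex.one_re] at h2
    exact h2
  have h2 : ∀ᶠ z in iI, 0 < (phi (qq z)).re := h1.eventually (lt_mem_nhds one_pos)
  obtain ⟨T, hT, h3⟩ := Pool.Agent.W97.MT.iI_eventually.1 h2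
  refine ⟨T + 1, by linarith, fun t ht => ?_⟩
  have h4 := h3 (t * Complex.I) (by simp; linarith)
  have hq : qq (t * Complex.I) = ((Real.exp (-(2 * Real.pi * t)) : ℝ) : ℂ) := by
    unfold qq
    rw [Complex.ofReal_exp]
    congr 1
    push_cast
    linear_combination (2 * Real.pi * t : ℂ) * Complex.I_sq
  rw [Pool.Agent.N974.MF.ff_q]
  rw [hq] at h4 ⊢
  rw [Complex.re_ofReal_mul]
  exact mul_pos (Real.exp_pos _) h4

/-- **the form is positive on the imaginary axis** -/
theorem ff_re_pos {t : ℝ} (ht : 0 < t) : 0 < (ff (t * Complex.I)).re := by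
  by_contra hn
  have hneg : (ff (t * Complex.I)).re < 0 := lt_of_le_of_ne (not_lt.1 hn) (ff_re_ne ht)
  obtain ⟨T, hT, h1⟩ := ff_ev
  have h2 := h1 (max t T) (le_max_right _ _)
  have hc : ContinuousOn (fun s : ℝ => (ff (s * Complex.I)).re) (Icc t (max t T)) := by
    refine Complex.continuous_re.comp_continuousOn (ff_cont.comp (by fun_prop) ?_)
    intro s hs
    have : t ≤ s := hs.1
    show 0 < ((s : ℂ) * Complex.I).im
    simp
    linarith
  obtain ⟨s, hs, hs0⟩ := intermediate_value_Icc (le_max_left t T) hc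
    (show (0 : ℝ) ∈ Icc (ff (t * Complex.I)).re (ff ((max t T : ℝ) * Complex.I)).re from
      ⟨hneg.le, h2.le⟩)
  exact ff_re_ne (lt_of_lt_of_le ht hs.1) hs0

/-- **the central value of the curve is positive** -/
theorem II0_pos : 0 < (II f15 0).re := by
  obtain ⟨L, Op, Om, hOp, hOm, g2, g3, hL⟩ := Pool.Agent.N975.Lat15.s_lat
  have hint := (Pool.Agent.N974.MF.integrals L g2 g3).1 0
  rw [II_eq]
  unfold Pool.Agent.N974.MF.II
  have e1 : (2 * (Real.pi : ℂ)) = ((2 * Real.pi : ℝ) : ℂ) := by push_cast; rfl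
  rw [e1, Complex.re_ofReal_mul]
  refine mul_pos (by positivity) ?_
  have e2 : (∫ t in Ioi (0 : ℝ), ff (((0 : ℚ) : ℂ) + t * Complex.I)).re =
      ∫ t in Ioi (0 : ℝ), (ff (((0 : ℚ) : ℂ) + t * Complex.I)).re := by
    have := Complex.reCLM.integral_comp_comm hint
    simpa using this.symm
  rw [e2]
  have hpos : ∀ t ∈ Ioi (0 : ℝ), 0 < (ff (((0 : ℚ) : ℂ) + t * Complex.I)).re := by
    intro t ht
    have := ff_re_pos (t := t) ht
    simpa using this
  rw [setIntegral_pos_iff_support_of_nonneg_ae]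
  · have e3 : Function.support (fun t : ℝ => (ff (((0 : ℚ) : ℂ) + t * Complex.I)).re) ∩ Ioi 0 =
        Ioi 0 := by
      ext t
      constructor
      · exact fun h => h.2
      · exact fun h => ⟨(hpos t h).ne', h⟩
    rw [e3]
    simp
  · exact (ae_restrict_iff' measurableSet_Ioi).2 (Eventually.of_forall fun t ht => (hpos t ht).le)
  · exact hint.re

/-- **the scale of the even symbol** -/
theorem scale15e (L : PeriodPair) (Op Om : ℝ) (hOp : 0 < Op) (hOm : 0 < Om)
    (g2 : L.g₂ = 481 / 12) (g3 : L.g₃ = 4879 / 216)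
    (hL : ∀ w : ℂ, w ∈ L.lattice ↔ ∃ a b : ℤ, w = a * Op + b * Om * Complex.I) :
    ky15 = -Op := by
  rcases scale15' L Op Om hOp hOm g2 g3 hL with h | h
  · have h1 := ky_II
    have h2 := II0_pos
    linarith
  · exact h

end Pool.Agent.N974.T15
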