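import Pool.Agent.N974.T15.Ex2
import Pool.Agent.N875.X15.Sy
import Pool.Agent.N975.T2

/-!
# Level 15: the exact scale and the sign of the odd symbol
-/

set_option autoImplicit false
set_option linter.unusedSectionVars false

open UpperHalfPlane MatrixGroups CongruenceSubgroup Filter Topology MeasureTheory Set

namespace Pool.Agent.N974.T15

open Pool.Agent.N974.Gen (II symbP F F_deriv F_gamma II_gamma)
open Pool.Agent.N974.GN (eigen15)
open Pool.Agent.N974.MF (f15 E15 ff ff_ne ff_cont Symb15 m15 j15 isCusp15)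
open Pool.Agent.N969.P15 (Fp)
open Pool.Agent.W97.MT (ap)
open Pool.Agent.N971.EX (scale_im)

/-- the radius -/
noncomputable def rad : ℝ := 1 / √15

theorem rad_pos : 0 < rad := by
  unfold rad
  positivity

theorem rad_sq : rad ^ 2 = 1 / 15 := by
  unfold rad
  rw [div_pow, Real.sq_sqrt (by norm_num)]
  norm_num

/-- the circle -/
noncomputable def cir (θ : ℝ) : ℂ := rad * Complex.exp (θ * Complex.I)

theorem cir_im (θ : ℝ) : (cir θ).im = rad * Real.sin θ := by
  unfold cir
  rw [Complex.im_ofReal_mul, Complex.exp_ofReal_mul_I_im]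

theorem cir_re (θ : ℝ) : (cir θ).re = rad * Real.cos θ := by
  unfold cir
  rw [Complex.re_ofReal_mul, Complex.exp_ofReal_mul_I_re]

theorem cir_pos {θ : ℝ} (h0 : 0 < θ) (h1 : θ < Real.pi) : 0 < (cir θ).im := by
  rw [cir_im]
  exact mul_pos rad_pos (Real.sin_pos_of_pos_of_lt_pi h0 h1)

theorem cir_norm (θ : ℝ) : 15 * (cir θ * (starRingEnd ℂ) (cir θ)) = 1 := by
  rw [Complex.mul_conj, Complex.normSq_apply, cir_re, cir_im]
  have h := rad_sq
  have h2 := Real.sin_sq_add_cos_sq θ
  have e : rad * Real.cos θ * (rad * Real.cos θ) + rad * Real.sin θ * (rad * Real.sin θ) =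
      1 / 15 := by
    have : rad * Real.cos θ * (rad * Real.cos θ) + rad * Real.sin θ * (rad * Real.sin θ) =
      rad ^ 2 * (Real.sin θ ^ 2 + Real.cos θ ^ 2) := by ring
    rw [this, h2, h, mul_one]
  rw [e]
  push_cast
  norm_num

theorem cir_ne (θ : ℝ) : cir θ ≠ 0 := by
  intro h
  have := cir_norm θ
  rw [h] at this
  simp at this

/-- the relation of the involution of level `15` -/
theorem frick {z : ℂ} (hz : 0 < z.im) : ff (m15 z) * j15 z = -ff z := by
  obtain ⟨L, Op, Om, hOp, hOm, g2, g3, hL⟩ := Pool.Agent.N975.Lat15.s_lat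
  obtain ⟨ε, C, hε, hff, hF⟩ := isCusp15.map.const
  have hF' : ∀ z : ℂ, 0 < z.im → Pool.Agent.N974.MF.F ((((0 : ℝ) : ℂ) * z + ((-1 : ℝ) : ℂ)) /
      (((15 : ℝ) : ℂ) * z + ((0 : ℝ) : ℂ))) = ε * Pool.Agent.N974.MF.F z + C := by
    intro z hz
    have := hF z hz
    unfold m15 at this
    push_cast
    rw [zero_mul, zero_add, add_zero]
    exact this
  have hN : (0 : ℝ) < 0 * 0 - (-1) * 15 := by norm_num
  have h0 : Pool.Agent.N974.MF.II 0 = C :=
    Pool.Agent.N974.MF.mob_II_inf hN hF' 0 (by norm_num) (by norm_num)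
  have h1 := Pool.Agent.N974.MF.mob_II_pole hN hF' 0 (by norm_num) (by norm_num)
  have h2 : ε = -1 := by
    rcases hε with rfl | rfl
    · exfalso
      have h3 := (Pool.Agent.N974.MF.integrals L g2 g3).2.1 0 (by simp) (by simp)
      apply h3.1
      have : Pool.Agent.N974.MF.II 0 = 0 := by
        rw [← h0] at h1
        have : (2 : ℂ) * Pool.Agent.N974.MF.II 0 = 0 := by linear_combination h1
        simpa using this
      rw [this]
      exact zero_mem _
    · rfl
  rw [hff z hz, h2]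
  ring

/-- the form on the circle -/
theorem ff_cir {θ : ℝ} (h0 : 0 < θ) (h1 : θ < Real.pi) : (ff (cir θ) * cir θ).re = 0 := by
  have hz := cir_pos h0 h1
  have h := frick hz
  have hn := cir_norm θ
  have hne := cir_ne θ
  have hm : m15 (cir θ) = -(starRingEnd ℂ) (cir θ) := by
    unfold m15
    rw [div_eq_iff (mul_ne_zero (by norm_num) hne)]
    linear_combination hn
  have hj : j15 (cir θ) * cir θ = (starRingEnd ℂ) (cir θ) := by
    unfold j15
    field_simp
    linear_combination -hn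
  rw [hm, Pool.Agent.N974.MF.ff_conj hz] at h
  have h2 : (starRingEnd ℂ) (ff (cir θ) * cir θ) = -(ff (cir θ) * cir θ) := by
    rw [map_mul, ← hj]
    linear_combination cir θ * h
  have h3 := congrArg Complex.re h2
  rw [Complex.conj_re, Complex.neg_re] at h3
  linarith

theorem ff_cir_ne {θ : ℝ} (h0 : 0 < θ) (h1 : θ < Real.pi) : (ff (cir θ) * cir θ).im ≠ 0 := by
  intro h
  have h2 : ff (cir θ) * cir θ = 0 := Complex.ext (ff_cir h0 h1) h
  rcases mul_eq_zero.1 h2 with h3 | h3
  · exact ff_ne (cir_pos h0 h1) h3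
  · exact cir_ne θ h3

theorem cir_half : cir (Real.pi / 2) = rad * Complex.I := by
  unfold cir
  congr 1
  have : ((Real.pi / 2 : ℝ) : ℂ) * Complex.I = Real.pi / 2 * Complex.I := by push_cast; rfl
  rw [this, Complex.exp_pi_div_two_mul_I]

theorem cir_cont : Continuous cir := by
  unfold cir
  fun_prop

theorem ff_cir_pos {θ : ℝ} (h0 : 0 < θ) (h1 : θ ≤ Real.pi / 2) : 0 < (ff (cir θ) * cir θ).im := by
  have hpi := Real.pi_pos
  by_contra hn
  have hneg : (ff (cir θ) * cir θ).im < 0 :=
    lt_of_le_of_ne (not_lt.1 hn) (ff_cir_ne h0 (by linarith))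
  have h2 : 0 < (ff (cir (Real.pi / 2)) * cir (Real.pi / 2)).im := by
    rw [cir_half]
    have e : ff (rad * Complex.I) * (rad * Complex.I) =
        ((rad : ℝ) : ℂ) * (ff (rad * Complex.I) * Complex.I) := by ring
    rw [e, Complex.im_ofReal_mul, Complex.mul_I_im]
    exact mul_pos rad_pos (ff_re_pos rad_pos)
  have hc : ContinuousOn (fun s : ℝ => (ff (cir s) * cir s).im) (Icc θ (Real.pi / 2)) := by
    refine Complex.continuous_im.comp_continuousOn (ContinuousOn.mul (ff_cont.comp
      cir_cont.continuousOn ?_) cir_cont.continuousOn)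
    intro s hs
    exact cir_pos (lt_of_lt_of_le h0 hs.1) (by have := hs.2; linarith)
  obtain ⟨s, hs, hs0⟩ := intermediate_value_Icc h1 hc
    (show (0 : ℝ) ∈ Icc (ff (cir θ) * cir θ).im (ff (cir (Real.pi / 2)) * cir (Real.pi / 2)).im from
      ⟨hneg.le, h2.le⟩)
  exact ff_cir_ne (lt_of_lt_of_le h0 hs.1) (by have := hs.2; linarith) hs0

/-- the primitive on the circle -/
theorem F_cir {θ : ℝ} (h0 : 0 < θ) (h1 : θ < Real.pi) : HasDerivAt (fun s : ℝ => (F f15 (cir s)).im)
    (-(2 * Real.pi) * (ff (cir θ) * cir θ).im) θ := by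
  have hz := cir_pos h0 h1
  have hc : HasDerivAt cir (cir θ * Complex.I) θ := by
    have e1 : HasDerivAt (fun s : ℝ => (s : ℂ) * Complex.I) (1 * Complex.I) θ :=
      (Complex.ofRealCLM.hasDerivAt (x := θ)).mul_const Complex.I
    have e2 := (e1.cexp).const_mul (rad : ℂ)
    refine e2.congr_deriv ?_
    unfold cir
    ring
  have h3 := HasDerivAt.scomp θ (F_deriv f15 hz) hc
  have h4 : HasDerivAt (fun s : ℝ => F f15 (cir s))
      ((2 * Real.pi * Complex.I * Pool.Agent.N974.Gen.ff f15 (cir θ)) * (cir θ * Complex.I)) θ := by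
    refine h3.congr_deriv ?_
    rw [smul_eq_mul, mul_comm]
  have h5 : HasDerivAt (fun s : ℝ => (F f15 (cir s)).im)
      (((2 * Real.pi * Complex.I * Pool.Agent.N974.Gen.ff f15 (cir θ)) *
        (cir θ * Complex.I)).im) θ := by
    have := Complex.imCLM.hasFDerivAt.comp_hasDerivAt θ h4
    exact this
  refine h5.congr_deriv ?_
  rw [ff_eq hz]
  have e : (2 * Real.pi * Complex.I * ff (cir θ)) * (cir θ * Complex.I) =
      ((-(2 * Real.pi) : ℝ) : ℂ) * (ff (cir θ) * cir θ) := by
    push_cast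
    linear_combination (2 * Real.pi * ff (cir θ) * cir θ) * Complex.I_sq
  rw [e, Complex.im_ofReal_mul]

/-- the second point -/
noncomputable def th1 : ℝ := Real.arcsin (1 / 31)

theorem th1_pos : 0 < th1 := Real.arcsin_pos.2 (by norm_num)

theorem th1_lt : th1 < Real.pi / 2 := Real.arcsin_lt_pi_div_two.2 (by norm_num)

theorem cos_th1 : Real.cos th1 = 120 * rad / 31 := by
  unfold th1
  rw [Real.cos_arcsin]
  have h : (1 : ℝ) - (1 / 31) ^ 2 = (120 * rad / 31) ^ 2 := by
    have e : (120 * rad / 31) ^ 2 = 14400 / 961 * rad ^ 2 := by ring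
    rw [e, rad_sq]
    norm_num
  rw [h, Real.sqrt_sq]
  have := rad_pos
  positivity

theorem cir_th1 : cir th1 = (8 / 31 : ℝ) + (rad / 31 : ℝ) * Complex.I := by
  apply Complex.ext
  · rw [cir_re, cos_th1]
    simp
    have := rad_sq
    linear_combination 120 / 31 * this
  · rw [cir_im]
    unfold th1
    rw [Real.sin_arcsin (by norm_num) (by norm_num)]
    simp
    ring

/-- **the sign of the odd symbol** -/
theorem im_quarter_pos : 0 < (II f15 (1 / 4)).im := by
  have hdet : (4 : ℤ) * 4 - 1 * (((15 : ℕ) : ℤ) * 1) = 1 := by norm_num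
  obtain ⟨p, hp⟩ := F_gamma f15 hdet
  have h1 := II_gamma f15 hdet hp 0 (by norm_num)
  have h2 : (II f15 (1 / 4)).im = p.im := by
    norm_num at h1
    rw [h1, Complex.add_im, II_eq, Pool.Agent.N974.MF.II_zero_im, zero_add]
  rw [h2]
  have hz : 0 < ((rad : ℂ) * Complex.I).im := by simpa using rad_pos
  have h3 := hp _ hz
  have h4 : ((((4 : ℤ) : ℂ) * (rad * Complex.I) + ((1 : ℤ) : ℂ)) /
      (((15 : ℕ) : ℂ) * ((1 : ℤ) : ℂ) * (rad * Complex.I) + ((4 : ℤ) : ℂ))) = cir th1 := by
    have hne : (((15 : ℕ) : ℂ) * ((1 : ℤ) : ℂ) * (rad * Complex.I) + ((4 : ℤ) : ℂ)) ≠ 0 := by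
      intro h
      have := congrArg Complex.re h
      simp at this
    rw [div_eq_iff hne, cir_th1]
    have hr : (rad : ℂ) ^ 2 = 1 / 15 := by
      have := congrArg ((↑) : ℝ → ℂ) rad_sq
      push_cast at this
      exact this
    push_cast
    linear_combination (-(15 / 31) * Complex.I ^ 2) * hr - (1 / 31 : ℂ) * Complex.I_sq
  rw [h4] at h3
  have h5 := congrArg Complex.im h3
  rw [Complex.add_im, ← cir_half] at h5
  have hpi := Real.pi_pos
  have hanti : StrictAntiOn (fun s : ℝ => (F f15 (cir s)).im) (Icc th1 (Real.pi / 2)) := by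
    apply strictAntiOn_of_deriv_neg (convex_Icc _ _)
    · intro s hs
      exact (F_cir (lt_of_lt_of_le th1_pos hs.1)
        (by have := hs.2; linarith)).continuousAt.continuousWithinAt
    · intro s hs
      rw [interior_Icc] at hs
      have h0 : 0 < s := lt_trans th1_pos hs.1
      rw [(F_cir h0 (by have := hs.2; linarith)).deriv]
      have := ff_cir_pos h0 hs.2.le
      nlinarith [mul_pos hpi this]
  have h6 := hanti (left_mem_Icc.2 th1_lt.le) (right_mem_Icc.2 th1_lt.le) th1_lt
  simp only at h6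
  linarith

/-- **the scale of the odd symbol** -/
theorem scale15o (L : PeriodPair) (Op Om : ℝ) (hOp : 0 < Op) (hOm : 0 < Om)
    (g2 : L.g₂ = 481 / 12) (g3 : L.g₃ = 4879 / 216)
    (hL : ∀ w : ℂ, w ∈ L.lattice ↔ ∃ a b : ℤ, w = a * Op + b * Om * Complex.I) :
    ∃ s : ℚ → ℤ, (∀ r : ℚ, (II f15 r).im = s r * Om / 2) ∧ Symb15 s (fun q => ap E15 q) ∧
      s (1 / 3) = 1 := by
  obtain ⟨sp, sm, hs, -, -, hsym⟩ :=
    Pool.Agent.N875.X15.Sy.exists_symbL L Op Om hOp hOm g2 g3 hL
  have him : ∀ r : ℚ, (II f15 r).im = sm r * Om / 2 := by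
    intro r
    have h := congrArg Complex.im (hs r)
    rw [← II_eq] at h
    simp at h
    linarith
  refine ⟨sm, him, hsym, ?_⟩
  have H := Pool.Agent.N975.T1.symbM_of hsym
  have hs0 : sm 0 = 0 := by
    have := hsym.neg 0
    rw [neg_zero] at this
    omega
  have h13 : sm (1 / 3) = 1 ∨ sm (1 / 3) = -1 := by
    refine scale_im (param15 L g2 g3) (hcusp15 L g2 g3) (Op := Op) (v := (Om : ℂ) * Complex.I)
      hOp.ne' (by simpa using hOm.ne') (fun w => ?_) (sm (1 / 3)) (fun a b c d hdet p hp => ?_)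
    · rw [hL]
      constructor
      · rintro ⟨a, b, h⟩
        exact ⟨a, b, by rw [h]; ring⟩
      · rintro ⟨a, b, h⟩
        exact ⟨a, b, by rw [h]; ring⟩
    · have hd : a * d - 15 * (b * c) = 1 := by
        push_cast at hdet
        linarith
      have hd0 : d ≠ 0 := by
        rintro rfl
        have h1 : (15 : ℤ) ∣ 1 := ⟨-(b * c), by linarith⟩
        norm_num at h1
      have hdq : (d : ℚ) ≠ 0 := by exact_mod_cast hd0
      have h1 := II_gamma f15 hdet hp 0 (by simpa using hdq)
      simp only [mul_zero, zero_add] at h1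
      have h2 := congrArg Complex.im h1
      rw [Complex.add_im, him, him, hs0] at h2
      have h3 := Pool.Agent.N975.Sym.t_SYM H (x := b) (M := d) hd0
        ⟨-c, a, by linear_combination hd⟩
      rw [hsym.s14] at h3
      refine ⟨Fp b d, ?_⟩
      rw [h3] at h2
      push_cast at h2
      simp at h2 ⊢
      linarith
  rcases h13 with h | h
  · exact h
  · exfalso
    have h1 := im_quarter_pos
    rw [him, hsym.s14, h] at h1
    push_cast at h1
    linarith

end Pool.Agent.N974.T15
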